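import Mathlib

/-!
# The content with a logarithmic gauge and the tree lemma
-/

set_option autoImplicit false

open MeasureTheory Set Filter Topology
open scoped ENNReal NNReal

namespace Pool.Agent.E8helper16.XR

/-- gauge -/
noncomputable def gauge (a t : ℝ) : ℝ≥0∞ := ENNReal.ofReal ((Real.log (2 + 1 / t)) ^ (-a))

/-- content of a set of real numbers -/
noncomputable def content (a : ℝ) (A : Set ℝ) : ℝ≥0∞ :=
  ⨅ (F : Set (ℝ × ℝ)) (_ : F.Countable) (_ : ∀ I ∈ F, I.1 < I.2)
    (_ : A ⊆ ⋃ I ∈ F, Icc I.1 I.2), ∑' I : F, gauge a ((I : ℝ × ℝ).2 - (I : ℝ × ℝ).1)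

lemma content_le {a : ℝ} {A : Set ℝ} {F : Set (ℝ × ℝ)} (h1 : F.Countable)
    (h2 : ∀ I ∈ F, I.1 < I.2) (h3 : A ⊆ ⋃ I ∈ F, Icc I.1 I.2) :
    content a A ≤ ∑' I : F, gauge a ((I : ℝ × ℝ).2 - (I : ℝ × ℝ).1) :=
  iInf₂_le_of_le F h1 (iInf₂_le_of_le h2 h3 le_rfl)

lemma content_mono {a : ℝ} {A B : Set ℝ} (h : A ⊆ B) : content a A ≤ content a B := by
  unfold content
  refine le_iInf fun F => le_iInf fun h1 => le_iInf fun h2 => le_iInf fun h3 => ?_
  exact iInf₂_le_of_le F h1 (iInf₂_le_of_le h2 (h.trans h3) le_rfl)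

lemma content_unit {a : ℝ} {A : Set ℝ} (h : A ⊆ Icc 1 2) : content a A ≤ gauge a 1 := by
  refine (content_le (F := {((1 : ℝ), (2 : ℝ))}) (countable_singleton _) ?_ ?_).trans ?_
  · intro I hI
    rw [mem_singleton_iff] at hI
    rw [hI]; norm_num
  · simpa using h
  · rw [tsum_fintype]
    simp
    norm_num

lemma content_empty {a : ℝ} : content a ∅ = 0 := by
  refine le_antisymm ((content_le (F := ∅) countable_empty (by simp) (by simp)).trans ?_) zero_le
  simp

lemma content_union {a : ℝ} (A B : Set ℝ) : content a (A ∪ B) ≤ content a A + content a B := by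
  conv_rhs => unfold content
  rw [ENNReal.iInf_add]
  refine le_iInf fun F => ?_
  rw [ENNReal.iInf_add]
  refine le_iInf fun h1 => ?_
  rw [ENNReal.iInf_add]
  refine le_iInf fun h2 => ?_
  rw [ENNReal.iInf_add]
  refine le_iInf fun h3 => ?_
  rw [ENNReal.add_iInf]
  refine le_iInf fun F' => ?_
  rw [ENNReal.add_iInf]
  refine le_iInf fun h1' => ?_
  rw [ENNReal.add_iInf]
  refine le_iInf fun h2' => ?_
  rw [ENNReal.add_iInf]
  refine le_iInf fun h3' => ?_
  refine (content_le (F := F ∪ F') (h1.union h1') ?_ ?_).trans ?_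
  · rintro I (hI | hI)
    · exact h2 I hI
    · exact h2' I hI
  · rw [biUnion_union]
    exact union_subset_union h3 h3'
  · exact ENNReal.tsum_union_le (fun I : ℝ × ℝ => gauge a (I.2 - I.1)) F F'

/-! ### the tree -/

section tree

variable (φ : ℕ → ℝ≥0∞) (q : ℕ → ℕ → ℝ)

/-- truncated value -/
noncomputable def v (t : ℝ) : ℕ → ℝ → ℕ → ℕ → ℝ≥0∞
  | 0, s, j, i => if t < s + q j i then φ j else 0
  | f + 1, s, j, i => if t < s + q j i then φ j else
      min (φ j) (v t f (s + q j i) (j + 1) (2 * i) + v t f (s + q j i) (j + 1) (2 * i + 1))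

/-- bound -/
noncomputable def B : ℕ → ℕ → ℕ → ℝ≥0∞
  | 0, j, i => ENNReal.ofReal (q j i) * φ j
  | f + 1, j, i => ENNReal.ofReal (q j i) * φ j + (B f (j + 1) (2 * i) + B f (j + 1) (2 * i + 1))

variable {φ q}

lemma v_le (t : ℝ) (f : ℕ) (s : ℝ) (j i : ℕ) : v φ q t f s j i ≤ φ j := by
  cases f with
  | zero => rw [v]; split_ifs <;> simp
  | succ f => rw [v]; split_ifs <;> simp

lemma v_mono (t : ℝ) (f : ℕ) (s : ℝ) (j i : ℕ) : v φ q t f s j i ≤ v φ q t (f + 1) s j i := by
  induction f generalizing s j i with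
  | zero =>
    rw [v, v]
    split_ifs
    · exact le_rfl
    · exact zero_le
  | succ f ih =>
    rw [v, v]
    split_ifs
    · exact le_rfl
    · exact min_le_min le_rfl (add_le_add (ih _ _ _) (ih _ _ _))

lemma v_monotone (t s : ℝ) (j i : ℕ) : Monotone (fun f => v φ q t f s j i) :=
  monotone_nat_of_le_succ fun f => v_mono t f s j i

lemma v_anti (f : ℕ) (s : ℝ) (j i : ℕ) : Antitone (fun t => v φ q t f s j i) := by
  induction f generalizing s j i with
  | zero =>
    intro t t' h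
    simp only [v]
    split_ifs with h1 h2
    · exact le_rfl
    · exact absurd (h.trans_lt h1) h2
    · exact zero_le
    · exact le_rfl
  | succ f ih =>
    intro t t' h
    simp only [v]
    split_ifs with h1 h2
    · exact le_rfl
    · exact absurd (h.trans_lt h1) h2
    · exact min_le_left _ _
    · exact min_le_min le_rfl (add_le_add (ih _ _ _ h) (ih _ _ _ h))

/-- limit value -/
noncomputable def V (φ : ℕ → ℝ≥0∞) (q : ℕ → ℕ → ℝ) (t s : ℝ) (j i : ℕ) : ℝ≥0∞ :=
  ⨆ f, v φ q t f s j i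

lemma V_le (t s : ℝ) (j i : ℕ) : V φ q t s j i ≤ φ j := iSup_le fun f => v_le t f s j i

lemma V_anti (s : ℝ) (j i : ℕ) : Antitone (fun t => V φ q t s j i) := fun t t' h =>
  iSup_mono fun f => v_anti f s j i h

lemma V_stop {t s : ℝ} {j i : ℕ} (h : t < s + q j i) : V φ q t s j i = φ j := by
  refine le_antisymm (V_le _ _ _ _) ?_
  refine le_trans ?_ (le_iSup (fun f => v φ q t f s j i) 0)
  rw [v, if_pos h]

lemma V_rec {t s : ℝ} {j i : ℕ} (h : ¬ t < s + q j i) (h2 : V φ q t s j i ≠ φ j) :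
    V φ q t (s + q j i) (j + 1) (2 * i) + V φ q t (s + q j i) (j + 1) (2 * i + 1) ≤
      V φ q t s j i := by
  have hlt : V φ q t s j i < φ j := lt_of_le_of_ne (V_le _ _ _ _) h2
  have h3 : ∀ f, v φ q t f (s + q j i) (j + 1) (2 * i) +
      v φ q t f (s + q j i) (j + 1) (2 * i + 1) ≤ V φ q t s j i := by
    intro f
    have h4 : v φ q t (f + 1) s j i ≤ V φ q t s j i := le_iSup (fun f => v φ q t f s j i) (f + 1)
    rw [v, if_neg h] at h4
    rcases min_le_iff.1 h4 with h5 | h5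
    · exact absurd (h5.trans_lt hlt) (lt_irrefl _)
    · exact h5
  rw [V, V, ENNReal.iSup_add_iSup_of_monotone (v_monotone _ _ _ _) (v_monotone _ _ _ _)]
  exact iSup_le h3

open Classical in
/-- the covering family up to depth `f` -/
noncomputable def cov (φ : ℕ → ℝ≥0∞) (q : ℕ → ℕ → ℝ) (t : ℝ) : ℕ → ℝ → ℕ → ℕ → Finset (ℕ × ℕ)
  | 0, s, j, i => if V φ q t s j i = φ j then {(j, i)} else ∅
  | f + 1, s, j, i => if V φ q t s j i = φ j then {(j, i)} else
      cov φ q t f (s + q j i) (j + 1) (2 * i) ∪ cov φ q t f (s + q j i) (j + 1) (2 * i + 1)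

lemma cov_mono (t : ℝ) (f : ℕ) (s : ℝ) (j i : ℕ) :
    cov φ q t f s j i ⊆ cov φ q t (f + 1) s j i := by
  classical
  induction f generalizing s j i with
  | zero =>
    rw [cov, cov]
    split_ifs
    · exact subset_rfl
    · exact Finset.empty_subset _
  | succ f ih =>
    rw [cov, cov]
    split_ifs
    · exact subset_rfl
    · exact Finset.union_subset_union (ih _ _ _) (ih _ _ _)

lemma cov_monotone (t s : ℝ) (j i : ℕ) : Monotone (fun f => cov φ q t f s j i) :=
  monotone_nat_of_le_succ fun f => cov_mono t f s j i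

lemma cov_sum (t : ℝ) (f : ℕ) (s : ℝ) (j i : ℕ) :
    ∑ p ∈ cov φ q t f s j i, φ p.1 ≤ V φ q t s j i := by
  classical
  induction f generalizing s j i with
  | zero =>
    rw [cov]
    split_ifs with h
    · rw [Finset.sum_singleton, h]
    · rw [Finset.sum_empty]; exact zero_le
  | succ f ih =>
    rw [cov]
    split_ifs with h
    · rw [Finset.sum_singleton, h]
    · have h1 : ¬ t < s + q j i := fun h2 => h (V_stop h2)
      refine le_trans ?_ (V_rec h1 h)
      have h2 := Finset.sum_union_inter (s₁ := cov φ q t f (s + q j i) (j + 1) (2 * i))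
        (s₂ := cov φ q t f (s + q j i) (j + 1) (2 * i + 1)) (f := fun p : ℕ × ℕ => φ p.1)
      exact (le_self_add.trans h2.le).trans (add_le_add (ih _ _ _) (ih _ _ _))

/-- index of the dyadic interval of level `l` which contains `u` -/
noncomputable def idx (l : ℕ) (u : ℝ) : ℕ := ⌊2 ^ l * u⌋₊

lemma idx_succ {u : ℝ} (hu : 0 ≤ u) (l : ℕ) : idx (l + 1) u = 2 * idx l u ∨ idx (l + 1) u = 2 * idx l u + 1 := by
  have h0 : 0 ≤ 2 ^ l * u := by positivity
  have h1 := Nat.floor_le h0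
  have h2 := Nat.lt_floor_add_one (2 ^ l * u)
  have h3 : 2 * idx l u ≤ idx (l + 1) u := by
    rw [idx, idx]
    apply Nat.le_floor
    push_cast
    rw [pow_succ]; nlinarith
  have h4 : idx (l + 1) u < 2 * idx l u + 2 := by
    rw [idx, idx, Nat.floor_lt (by positivity)]
    push_cast
    rw [pow_succ]; nlinarith
  omega

lemma idx_zero {u : ℝ} (h1 : u < 1) : idx 0 u = 0 := by
  rw [idx, pow_zero, one_mul]
  exact Nat.floor_eq_zero.2 h1

lemma cov_mem {t u : ℝ} (hu : 0 ≤ u) (f : ℕ) (s : ℝ) (j : ℕ)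
    (h : t < s + ∑ l ∈ Finset.range (f + 1), q (j + l) (idx (j + l) u)) :
    ∃ l, (l, idx l u) ∈ cov φ q t f s j (idx j u) := by
  classical
  induction f generalizing s j with
  | zero =>
    rw [Finset.sum_range_one, add_zero] at h
    exact ⟨j, by rw [cov, if_pos (V_stop h)]; exact Finset.mem_singleton_self _⟩
  | succ f ih =>
    rw [Finset.sum_range_succ', add_zero] at h
    rw [cov]
    split_ifs with h1
    · exact ⟨j, Finset.mem_singleton_self _⟩
    · obtain ⟨l, hl⟩ := ih (s + q j (idx j u)) (j + 1) (by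
        have : ∀ l, j + 1 + l = j + (l + 1) := fun l => by ring
        simp only [this]
        linarith)
      rcases idx_succ hu j with h2 | h2
      · rw [h2] at hl
        exact ⟨l, Finset.mem_union_left _ hl⟩
      · rw [h2] at hl
        exact ⟨l, Finset.mem_union_right _ hl⟩

lemma v_slab (f : ℕ) (s : ℝ) (j i : ℕ) :
    ∫⁻ t in Ico s (s + q j i), v φ q t f s j i ≤ ENNReal.ofReal (q j i) * φ j := by
  refine (lintegral_mono (fun t => v_le t f s j i)).trans ?_
  rw [lintegral_const, Measure.restrict_apply_univ, Real.volume_Ico, mul_comm]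
  simp

lemma B_int (hq : ∀ j i, 0 ≤ q j i) (f : ℕ) (s : ℝ) (j i : ℕ) :
    ∫⁻ t in Ici s, v φ q t f s j i ≤ B φ q f j i := by
  induction f generalizing s j i with
  | zero =>
    have hsplit : Ici s = Ico s (s + q j i) ∪ Ici (s + q j i) :=
      (Ico_union_Ici_eq_Ici (by linarith [hq j i])).symm
    rw [hsplit]
    refine (lintegral_union_le _ _ _).trans ?_
    rw [B]
    have h2 : ∫⁻ t in Ici (s + q j i), v φ q t 0 s j i = 0 := by
      rw [setLIntegral_congr_fun measurableSet_Ici (g := fun _ => 0)]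
      · simp
      · intro t ht
        simp only [v]
        rw [if_neg (not_lt.2 ht)]
    rw [h2, add_zero]
    exact v_slab 0 _ _ _
  | succ f ih =>
    have hsplit : Ici s = Ico s (s + q j i) ∪ Ici (s + q j i) :=
      (Ico_union_Ici_eq_Ici (by linarith [hq j i])).symm
    rw [hsplit]
    refine (lintegral_union_le _ _ _).trans ?_
    rw [B]
    refine add_le_add (v_slab _ _ _ _) ?_
    calc ∫⁻ t in Ici (s + q j i), v φ q t (f + 1) s j i
        ≤ ∫⁻ t in Ici (s + q j i), (v φ q t f (s + q j i) (j + 1) (2 * i) +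
            v φ q t f (s + q j i) (j + 1) (2 * i + 1)) := by
          refine setLIntegral_mono' measurableSet_Ici fun t ht => ?_
          rw [v, if_neg (not_lt.2 ht)]
          exact min_le_right _ _
      _ = (∫⁻ t in Ici (s + q j i), v φ q t f (s + q j i) (j + 1) (2 * i)) +
            ∫⁻ t in Ici (s + q j i), v φ q t f (s + q j i) (j + 1) (2 * i + 1) :=
          lintegral_add_left (v_anti f _ _ _).measurable _
      _ ≤ _ := add_le_add (ih _ _ _) (ih _ _ _)

lemma B_le (f j i : ℕ) : B φ q f j i ≤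
    ∑ l ∈ Finset.range (f + 1), φ (j + l) * ∑ c ∈ Finset.range (2 ^ l),
      ENNReal.ofReal (q (j + l) (i * 2 ^ l + c)) := by
  induction f generalizing j i with
  | zero => simp [B, mul_comm]
  | succ f ih =>
    rw [B, Finset.sum_range_succ' _ (f + 1)]
    simp only [add_zero, pow_zero, mul_one, Finset.range_one, Finset.sum_singleton]
    rw [add_comm, mul_comm (φ j)]
    refine add_le_add ((add_le_add (ih _ _) (ih _ _)).trans (le_of_eq ?_)) le_rfl
    rw [← Finset.sum_add_distrib]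
    refine Finset.sum_congr rfl fun l _ => ?_
    have h1 : j + 1 + l = j + (l + 1) := by ring
    rw [h1, ← mul_add]
    congr 1
    have h2 : 2 ^ (l + 1) = 2 ^ l + 2 ^ l := by rw [pow_succ]; ring
    rw [h2, Finset.sum_range_add]
    congr 1
    · refine Finset.sum_congr rfl fun c _ => ?_
      congr 2; ring
    · refine Finset.sum_congr rfl fun c _ => ?_
      congr 2; ring

end tree

/-- covers given by families -/
lemma content_le_fam {a : ℝ} {A : Set ℝ} {ι : Type} [Countable ι] (I : ι → ℝ × ℝ)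
    (h2 : ∀ i, (I i).1 < (I i).2) (h3 : A ⊆ ⋃ i, Icc (I i).1 (I i).2) :
    content a A ≤ ∑' i, gauge a ((I i).2 - (I i).1) := by
  refine (content_le (F := ⋃ i, {I i}) (countable_iUnion fun i => countable_singleton _) ?_ ?_).trans ?_
  · intro J hJ
    obtain ⟨i, hi⟩ := mem_iUnion.1 hJ
    rw [mem_singleton_iff.1 hi]; exact h2 i
  · intro x hx
    obtain ⟨i, hi⟩ := mem_iUnion.1 (h3 hx)
    exact mem_biUnion (mem_iUnion.2 ⟨i, mem_singleton _⟩) hi
  · refine (ENNReal.tsum_iUnion_le_tsum (fun J : ℝ × ℝ => gauge a (J.2 - J.1)) (fun i => {I i})).trans ?_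
    refine ENNReal.tsum_le_tsum fun i => ?_
    rw [tsum_singleton (I i) (fun J : ℝ × ℝ => gauge a (J.2 - J.1))]

/-- gauge of a dyadic interval of level `j` -/
noncomputable def ph (a : ℝ) (j : ℕ) : ℝ≥0∞ := gauge a (1 / 2 ^ j)

/-- **tree lemma** -/
theorem tree_content {a : ℝ} {q : ℕ → ℕ → ℝ} (t : ℝ) {A : Set ℝ} (hA : A ⊆ Ico 1 2)
    (h : ∀ ρ ∈ A, ∃ f, t < ∑ l ∈ Finset.range (f + 1), q l (idx l (ρ - 1))) :
    content a A ≤ V (ph a) q t 0 0 0 := by
  classical
  set C : Set (ℕ × ℕ) := ⋃ f, (cov (ph a) q t f 0 0 0 : Set (ℕ × ℕ)) with hC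
  have h1 : content a A ≤ ∑' p : C, ph a (p : ℕ × ℕ).1 := by
    refine (content_le_fam (ι := C) (fun p => (1 + ((p : ℕ × ℕ).2 : ℝ) / 2 ^ (p : ℕ × ℕ).1,
      1 + (((p : ℕ × ℕ).2 : ℝ) + 1) / 2 ^ (p : ℕ × ℕ).1)) ?_ ?_).trans (le_of_eq ?_)
    · intro p
      simp only
      have : (0 : ℝ) < 2 ^ (p : ℕ × ℕ).1 := by positivity
      gcongr
      linarith
    · intro ρ hρ
      obtain ⟨f, hf⟩ := h ρ hρ
      have h0 : 0 ≤ ρ - 1 := by linarith [(hA hρ).1]
      obtain ⟨l, hl⟩ := cov_mem (φ := ph a) (t := t) (u := ρ - 1) h0 f 0 0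
        (by simpa using hf)
      rw [idx_zero (by linarith [(hA hρ).2])] at hl
      refine mem_iUnion.2 ⟨⟨(l, idx l (ρ - 1)), mem_iUnion.2 ⟨f, hl⟩⟩, ?_⟩
      have h2 : (0 : ℝ) < 2 ^ l := by positivity
      have h3 := Nat.floor_le (show 0 ≤ 2 ^ l * (ρ - 1) by positivity)
      have h4 := Nat.lt_floor_add_one (2 ^ l * (ρ - 1))
      constructor
      · simp only [idx]
        have : ((⌊2 ^ l * (ρ - 1)⌋₊ : ℕ) : ℝ) / 2 ^ l ≤ ρ - 1 := by
          rw [div_le_iff₀ h2]; linarith
        linarith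
      · simp only [idx]
        have : ρ - 1 ≤ (((⌊2 ^ l * (ρ - 1)⌋₊ : ℕ) : ℝ) + 1) / 2 ^ l := by
          rw [le_div_iff₀ h2]; linarith
        linarith
    · refine tsum_congr fun p => ?_
      rw [ph]
      congr 1
      simp only
      ring
  refine h1.trans ?_
  rw [ENNReal.tsum_eq_iSup_sum]
  refine iSup_le fun T => ?_
  obtain ⟨f, hf⟩ : ∃ f, ∀ p ∈ T, (p : ℕ × ℕ) ∈ cov (ph a) q t f 0 0 0 := by
    induction T using Finset.induction_on with
    | empty => exact ⟨0, by simp⟩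
    | insert p T _ ih =>
      obtain ⟨f, hf⟩ := ih
      obtain ⟨f', hf'⟩ := mem_iUnion.1 p.2
      refine ⟨max f f', fun p' hp' => ?_⟩
      rcases Finset.mem_insert.1 hp' with rfl | hp'
      · exact cov_monotone t 0 0 0 (le_max_right f f') hf'
      · exact cov_monotone t 0 0 0 (le_max_left f f') (hf p' hp')
  have h2 : ∑ p ∈ T, ph a (p : ℕ × ℕ).1 = ∑ p ∈ T.map (Function.Embedding.subtype _), ph a p.1 := by
    rw [Finset.sum_map]; rfl
  rw [h2]
  refine le_trans (Finset.sum_le_sum_of_subset ?_) (cov_sum t f 0 0 0)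
  intro p hp
  obtain ⟨p', hp', rfl⟩ := Finset.mem_map.1 hp
  exact hf p' hp'

/-- **Choquet integral** -/
theorem tree_choquet {a : ℝ} {q : ℕ → ℕ → ℝ} (hq : ∀ j i, 0 ≤ q j i) :
    ∫⁻ t in Ici (0 : ℝ), V (ph a) q t 0 0 0 ≤
      ∑' l : ℕ, ph a l * ∑ c ∈ Finset.range (2 ^ l), ENNReal.ofReal (q l c) := by
  unfold V
  rw [lintegral_iSup (fun f => (v_anti f 0 0 0).measurable)
    (fun f f' h t => v_monotone t 0 0 0 h)]
  refine iSup_le fun f => (B_int hq f 0 0 0).trans ((B_le f 0 0).trans ?_)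
  simp only [zero_add, zero_mul]
  exact ENNReal.sum_le_tsum _

end Pool.Agent.E8helper16.XR
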