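import Mathlib
import Pool.Agent.Helper93.Sph.R
import Pool.Agent.Helper93.Sph.W1
import Pool.Agent.E8helper16.XR.A

/-!
# The increments inside the dyadic shells
-/

set_option autoImplicit false

open MeasureTheory Set Filter Topology
open scoped ENNReal NNReal

namespace Pool.Agent.E8helper16.XR

open Pool.Agent.Helper93.Sph

/-- left end point -/
noncomputable def le_ (k : ℤ) (j i : ℕ) : ℝ := 2 ^ k * (1 + (i : ℝ) / 2 ^ j)

/-- midpoint -/
noncomputable def mi_ (k : ℤ) (j i : ℕ) : ℝ := 2 ^ k * (1 + ((i : ℝ) + 1 / 2) / 2 ^ j)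

/-- increment of the partial sums over the left half of a dyadic interval -/
noncomputable def dd {n : ℕ} (G : En n → ℂ) (k : ℤ) (j i : ℕ) (x : En n) : ℂ :=
  ps G (mi_ k j i) x - ps G (le_ k j i) x

/-- weights -/
noncomputable def wt (a : ℝ) (j : ℕ) : ℝ := ((j : ℝ) + 1) ^ (a / 2)

/-- sum of the inverse weights -/
noncomputable def A0 (a : ℝ) : ℝ := ∑' j, (wt a j)⁻¹

lemma wt_pos (a : ℝ) (j : ℕ) : 0 < wt a j := by unfold wt; positivity

lemma wt_summable {a : ℝ} (ha : 2 < a) : Summable (fun j => (wt a j)⁻¹) := by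
  have h1 : Summable (fun n : ℕ => 1 / (n : ℝ) ^ (a / 2)) := Real.summable_one_div_nat_rpow.2 (by linarith)
  have h2 := (summable_nat_add_iff 1).2 h1
  refine h2.congr fun j => ?_
  rw [wt, one_div]; push_cast; rfl

lemma A0_pos {a : ℝ} (ha : 2 < a) : 0 < A0 a :=
  (wt_summable ha).tsum_pos (fun j => (inv_pos.2 (wt_pos a j)).le) 0 (inv_pos.2 (wt_pos a 0))

/-- tree masses -/
noncomputable def qq {n : ℕ} (a : ℝ) (G : En n → ℂ) (k : ℤ) (x : En n) (j i : ℕ) : ℝ :=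
  A0 a * (wt a j * ‖dd G k j i x‖ ^ 2)

lemma qq_nonneg {n : ℕ} {a : ℝ} (ha : 2 < a) (G : En n → ℂ) (k : ℤ) (x : En n) (j i : ℕ) :
    0 ≤ qq a G k x j i :=
  mul_nonneg (A0_pos ha).le (mul_nonneg (wt_pos a j).le (sq_nonneg _))

/-- dyadic approximation of the radius -/
lemma chain_step {n : ℕ} (G : En n → ℂ) (k : ℤ) (x : En n) {u : ℝ} (hu : 0 ≤ u) (j : ℕ) :
    ‖ps G (le_ k (j + 1) (idx (j + 1) u)) x - ps G (le_ k j (idx j u)) x‖ ≤
      ‖dd G k j (idx j u) x‖ := by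
  rcases idx_succ hu j with h | h
  · have h1 : le_ k (j + 1) (idx (j + 1) u) = le_ k j (idx j u) := by
      rw [le_, le_, h]
      push_cast
      rw [pow_succ]
      field_simp
    rw [h1, sub_self, norm_zero]
    exact norm_nonneg _
  · have h1 : le_ k (j + 1) (idx (j + 1) u) = mi_ k j (idx j u) := by
      rw [le_, mi_, h]
      push_cast
      rw [pow_succ]
      field_simp
      
    rw [h1, dd]

lemma chain_sum {n : ℕ} {a : ℝ} (ha : 2 < a) (G : En n → ℂ) (k : ℤ) (x : En n) {u : ℝ}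
    (hu : 0 ≤ u) (f : ℕ) :
    ‖ps G (le_ k f (idx f u)) x - ps G (le_ k 0 (idx 0 u)) x‖ ^ 2 ≤
      ∑ l ∈ Finset.range f, qq a G k x l (idx l u) := by
  have h1 : ‖ps G (le_ k f (idx f u)) x - ps G (le_ k 0 (idx 0 u)) x‖ ≤
      ∑ l ∈ Finset.range f, ‖dd G k l (idx l u) x‖ := by
    rw [← Finset.sum_range_sub (fun l => ps G (le_ k l (idx l u)) x)]
    exact (norm_sum_le _ _).trans (Finset.sum_le_sum fun l _ => chain_step G k x hu l)
  have h2 : (∑ l ∈ Finset.range f, ‖dd G k l (idx l u) x‖) ^ 2 ≤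
      (∑ l ∈ Finset.range f, (wt a l)⁻¹) *
        ∑ l ∈ Finset.range f, wt a l * ‖dd G k l (idx l u) x‖ ^ 2 := by
    refine Finset.sum_sq_le_sum_mul_sum_of_sq_le_mul _ (fun l _ => (inv_pos.2 (wt_pos a l)).le)
      (fun l _ => mul_nonneg (wt_pos a l).le (sq_nonneg _)) fun l _ => ?_
    rw [← mul_assoc, inv_mul_cancel₀ (wt_pos a l).ne', one_mul]
  have h3 : ∑ l ∈ Finset.range f, (wt a l)⁻¹ ≤ A0 a :=
    (wt_summable ha).sum_le_tsum _ fun l _ => (inv_pos.2 (wt_pos a l)).le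
  calc _ ≤ (∑ l ∈ Finset.range f, ‖dd G k l (idx l u) x‖) ^ 2 :=
        pow_le_pow_left₀ (norm_nonneg _) h1 2
    _ ≤ _ := h2
    _ ≤ A0 a * ∑ l ∈ Finset.range f, wt a l * ‖dd G k l (idx l u) x‖ ^ 2 :=
        mul_le_mul_of_nonneg_right h3
          (Finset.sum_nonneg fun l _ => mul_nonneg (wt_pos a l).le (sq_nonneg _))
    _ = _ := by rw [Finset.mul_sum]; rfl

lemma le_tendsto (k : ℤ) {ρ : ℝ} (hρ : 1 ≤ ρ) :
    Tendsto (fun j => le_ k j (idx j (ρ - 1))) atTop (𝓝 (2 ^ k * ρ)) := by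
  have h1 := dyad_tendsto (t := ρ - 1) (by linarith)
  have h2 : Tendsto (fun j : ℕ => (2 : ℝ) ^ k * (1 + (⌊(ρ - 1) * 2 ^ j⌋₊ : ℝ) / 2 ^ j)) atTop
      (𝓝 (2 ^ k * (1 + (ρ - 1)))) := (h1.const_add 1).const_mul _
  rw [show 1 + (ρ - 1) = ρ by ring] at h2
  refine h2.congr fun j => ?_
  rw [le_, idx, mul_comm (ρ - 1)]

/-- the level sets of the increments are covered by the tree -/
theorem shell_content {m : ℕ} {a : ℝ} (ha : 2 < a) {G : En (m + 1) → ℂ} (hG : MemLp G 2) (k : ℤ)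
    (x : En (m + 1)) (t : ℝ) :
    content a {ρ | ρ ∈ Ico (1 : ℝ) 2 ∧ t < ‖ps G (2 ^ k * ρ) x - ps G (2 ^ k) x‖ ^ 2} ≤
      V (ph a) (qq a G k x) t 0 0 0 := by
  refine tree_content t (fun ρ h => h.1) ?_
  rintro ρ ⟨hρ, ht⟩
  have h1 : Tendsto (fun j => ‖ps G (le_ k j (idx j (ρ - 1))) x - ps G (2 ^ k) x‖ ^ 2) atTop
      (𝓝 (‖ps G (2 ^ k * ρ) x - ps G (2 ^ k) x‖ ^ 2)) :=
    (((((ps_cont_R hG x).tendsto _).comp (le_tendsto k hρ.1)).sub tendsto_const_nhds).norm).pow 2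
  have h0 : le_ k 0 (idx 0 (ρ - 1)) = 2 ^ k := by
    rw [idx_zero (by linarith [hρ.2]), le_]; simp
  obtain ⟨f, hf⟩ := (h1.eventually_const_lt ht).exists
  refine ⟨f, ?_⟩
  have h2 := chain_sum ha G k x (u := ρ - 1) (by linarith [hρ.1]) f
  rw [h0] at h2
  refine (hf.trans_le h2).trans_le ?_
  rw [Finset.sum_range_succ]
  exact le_add_of_nonneg_right (qq_nonneg ha G k x _ _)

/-- majorant of the shell `k` -/
noncomputable def Nk {n : ℕ} (a : ℝ) (G : En n → ℂ) (k : ℤ) (x : En n) : ℝ≥0∞ :=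
  ∑' l : ℕ, ph a l * ∑ c ∈ Finset.range (2 ^ l), ENNReal.ofReal (qq a G k x l c)

theorem shell_choquet {m : ℕ} {a : ℝ} (ha : 2 < a) {G : En (m + 1) → ℂ} (hG : MemLp G 2) (k : ℤ)
    (x : En (m + 1)) :
    ∫⁻ t in Ici (0 : ℝ), content a {ρ | ρ ∈ Ico (1 : ℝ) 2 ∧
      t < ‖ps G (2 ^ k * ρ) x - ps G (2 ^ k) x‖ ^ 2} ≤ Nk a G k x :=
  (lintegral_mono fun t => shell_content ha hG k x t).trans
    (tree_choquet fun j i => qq_nonneg ha G k x j i)

lemma dd_meas {m : ℕ} {G : En (m + 1) → ℂ} (hG : MemLp G 2) (k : ℤ) (j i : ℕ) :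
    Continuous (dd G k j i) := (ps_cont_x hG _).sub (ps_cont_x hG _)

lemma qq_meas {m : ℕ} {a : ℝ} {G : En (m + 1) → ℂ} (hG : MemLp G 2) (k : ℤ) (j i : ℕ) :
    Measurable (fun x => qq a G k x j i) :=
  (((dd_meas hG k j i).norm.pow 2).measurable.const_mul _).const_mul _

lemma Nk_meas {m : ℕ} {a : ℝ} {G : En (m + 1) → ℂ} (hG : MemLp G 2) (k : ℤ) :
    Measurable (Nk a G k) :=
  Measurable.tsum fun l => Measurable.const_mul
    (Finset.measurable_fun_sum _ fun c _ => (qq_meas hG k l c).ennreal_ofReal) _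

/-- finite constant of the gauge -/
noncomputable def C1 (a : ℝ) : ℝ≥0∞ := ENNReal.ofReal (A0 a) * ∑' l : ℕ, ph a l * ENNReal.ofReal (wt a l)

lemma dd_int {m : ℕ} {G : En (m + 1) → ℂ} (hG : MemLp G 2) (k : ℤ) (j i : ℕ) :
    ∫⁻ x, ‖dd G k j i x‖ₑ ^ 2 ≤
      ∫⁻ ξ in shell (m + 1) (le_ k j i) (le_ k j (i + 1)), ‖G ξ‖ₑ ^ 2 := by
  have h0 : 0 ≤ le_ k j i := by unfold le_; positivity
  have h1 : le_ k j i ≤ mi_ k j i := by
    unfold le_ mi_; gcongr; linarith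
  have h2 : mi_ k j i ≤ le_ k j (i + 1) := by
    unfold le_ mi_; push_cast; gcongr; norm_num
  have h3 : ∫⁻ x, ‖dd G k j i x‖ₑ ^ 2 ≤
      ∫⁻ ξ in shell (m + 1) (le_ k j i) (mi_ k j i), ‖G ξ‖ₑ ^ 2 := by
    refine le_trans (le_of_eq ?_) (piece_l2 hG (shell_meas (m + 1) _ _) (shell_finite _ _ _))
    refine lintegral_congr fun x => ?_
    rw [dd, ps_sub hG h0 h1]
  refine h3.trans (lintegral_mono_set ?_)
  rintro ξ ⟨h4, h5⟩
  exact ⟨h4, h5.trans_le h2⟩

lemma shell_sum {n : ℕ} (F : En n → ℝ≥0∞) (k : ℤ) (l : ℕ) :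
    ∑ c ∈ Finset.range (2 ^ l), ∫⁻ ξ in shell n (le_ k l c) (le_ k l (c + 1)), F ξ =
      ∫⁻ ξ in shell n (2 ^ k) (2 ^ (k + 1)), F ξ := by
  have key : ∀ N : ℕ, ∑ c ∈ Finset.range N, ∫⁻ ξ in shell n (le_ k l c) (le_ k l (c + 1)), F ξ =
      ∫⁻ ξ in shell n (le_ k l 0) (le_ k l N), F ξ := by
    intro N
    induction N with
    | zero =>
      have h0 : shell n (le_ k l 0) (le_ k l 0) = ∅ := by
        ext ξ
        simp only [shell, mem_ofPred_eq, mem_empty_iff_false, iff_false, not_and, not_lt]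
        exact fun h => h
      rw [Finset.range_zero, Finset.sum_empty, h0]
      simp
    | succ N ih =>
      rw [Finset.sum_range_succ, ih, ← lintegral_union (shell_meas _ _ _)]
      · congr 2
        have h1 : le_ k l 0 ≤ le_ k l N := by
          unfold le_; gcongr; simp
        have h2 : le_ k l N ≤ le_ k l (N + 1) := by
          unfold le_; gcongr; simp
        ext ξ
        simp only [shell, mem_union, mem_ofPred_eq]
        constructor
        · rintro (⟨a1, a2⟩ | ⟨a1, a2⟩)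
          · exact ⟨a1, a2.trans_le h2⟩
          · exact ⟨h1.trans a1, a2⟩
        · rintro ⟨a1, a2⟩
          rcases lt_or_ge ‖ξ‖ (le_ k l N) with h | h
          · exact Or.inl ⟨a1, h⟩
          · exact Or.inr ⟨h, a2⟩
      · rw [Set.disjoint_left]
        rintro ξ ⟨_, a2⟩ ⟨a3, _⟩
        exact absurd a2 (not_lt.2 a3)
  rw [key]
  congr 3
  · simp [le_]
  · unfold le_
    push_cast
    rw [div_self (by positivity), zpow_add₀ (by norm_num)]
    norm_num

theorem Nk_int {m : ℕ} {a : ℝ} {G : En (m + 1) → ℂ} (hG : MemLp G 2) (k : ℤ) :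
    ∫⁻ x, Nk a G k x ≤ C1 a * ∫⁻ ξ in shell (m + 1) (2 ^ k) (2 ^ (k + 1)), ‖G ξ‖ₑ ^ 2 := by
  unfold Nk
  rw [lintegral_tsum (fun l => (Measurable.const_mul
    (Finset.measurable_fun_sum _ fun c _ => (qq_meas hG k l c).ennreal_ofReal) _).aemeasurable)]
  rw [C1, mul_assoc, ← ENNReal.tsum_mul_right, ← ENNReal.tsum_mul_left]
  refine ENNReal.tsum_le_tsum fun l => ?_
  rw [lintegral_const_mul _ (Finset.measurable_fun_sum _ fun c _ => (qq_meas hG k l c).ennreal_ofReal),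
    lintegral_finsetSum _ fun c _ => (qq_meas hG k l c).ennreal_ofReal]
  have h1 : ∀ c, ∫⁻ x, ENNReal.ofReal (qq a G k x l c) ≤ ENNReal.ofReal (A0 a) *
      (ENNReal.ofReal (wt a l) * ∫⁻ ξ in shell (m + 1) (le_ k l c) (le_ k l (c + 1)), ‖G ξ‖ₑ ^ 2) := by
    intro c
    have h2 : ∀ x, ENNReal.ofReal (qq a G k x l c) ≤ ENNReal.ofReal (A0 a) *
        (ENNReal.ofReal (wt a l) * ‖dd G k l c x‖ₑ ^ 2) := by
      intro x
      rw [qq]
      rcases le_or_gt 0 (A0 a) with h | h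
      · rw [ENNReal.ofReal_mul h, ENNReal.ofReal_mul (wt_pos a l).le, ENNReal.ofReal_pow (norm_nonneg _),
          ofReal_norm]
      · rw [ENNReal.ofReal_of_nonpos]
        · exact zero_le
        · exact mul_nonpos_of_nonpos_of_nonneg h.le (mul_nonneg (wt_pos a l).le (sq_nonneg _))
    refine (lintegral_mono h2).trans ?_
    rw [lintegral_const_mul _ ((dd_meas hG k l c).measurable.enorm.pow_const 2 |>.const_mul _),
      lintegral_const_mul _ ((dd_meas hG k l c).measurable.enorm.pow_const 2)]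
    exact mul_le_mul_right (mul_le_mul_right (dd_int hG k l c) _) _
  calc ph a l * ∑ c ∈ Finset.range (2 ^ l), ∫⁻ x, ENNReal.ofReal (qq a G k x l c)
      ≤ ph a l * ∑ c ∈ Finset.range (2 ^ l), ENNReal.ofReal (A0 a) * (ENNReal.ofReal (wt a l) *
          ∫⁻ ξ in shell (m + 1) (le_ k l c) (le_ k l (c + 1)), ‖G ξ‖ₑ ^ 2) := by
        gcongr with c _
        exact h1 c
    _ = _ := by
        rw [← Finset.mul_sum, ← Finset.mul_sum, shell_sum]
        ring

lemma ph_le {a : ℝ} (ha : 0 ≤ a) (l : ℕ) :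
    ph a l ≤ ENNReal.ofReal ((Real.log 2 / 2) ^ (-a) * ((l : ℝ) + 1) ^ (-a)) := by
  rw [ph, gauge]
  refine ENNReal.ofReal_le_ofReal ?_
  have h2 := Real.log_pos one_lt_two
  rw [← Real.mul_rpow (by positivity) (by positivity)]
  refine Real.rpow_le_rpow_of_nonpos (by positivity) ?_ (by linarith)
  rw [one_div_one_div]
  have h3 : Real.log 2 ≤ Real.log (2 + 2 ^ l) := Real.log_le_log (by norm_num) (by
    have : (0 : ℝ) < 2 ^ l := by positivity
    linarith)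
  have h4 : (l : ℝ) * Real.log 2 ≤ Real.log (2 + 2 ^ l) := by
    rw [← Real.log_pow]
    exact Real.log_le_log (by positivity) (by linarith)
  nlinarith

lemma C1_lt {a : ℝ} (ha : 2 < a) : C1 a < ⊤ := by
  rw [C1]
  refine ENNReal.mul_lt_top ENNReal.ofReal_lt_top ?_
  have h1 : ∀ l : ℕ, ph a l * ENNReal.ofReal (wt a l) ≤
      ENNReal.ofReal ((Real.log 2 / 2) ^ (-a) * (wt a l)⁻¹) := by
    intro l
    refine (mul_le_mul_left (ph_le (by linarith) l) _).trans ?_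
    rw [← ENNReal.ofReal_mul (by have := Real.log_pos one_lt_two; positivity)]
    refine ENNReal.ofReal_le_ofReal (le_of_eq ?_)
    rw [mul_assoc]
    congr 1
    rw [wt, ← Real.rpow_add (by positivity), ← Real.rpow_neg (by positivity)]
    congr 1
    ring
  refine (ENNReal.tsum_le_tsum h1).trans_lt ?_
  have h2 : Summable (fun l : ℕ => (Real.log 2 / 2) ^ (-a) * (wt a l)⁻¹) := (wt_summable ha).mul_left _
  exact h2.tsum_ofReal_lt_top

end Pool.Agent.E8helper16.XR
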