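import Mathlib
import Pool.Agent.Helper93.Sph.A

/-!
# The maximal function of the Gaussian means, by the method of Kolmogorov, Seliverstov and Plessner
-/

set_option autoImplicit false

open MeasureTheory Set Filter Topology
open scoped ENNReal NNReal RealInnerProductSpace

namespace Pool.Agent.E8helper16.XR

open Pool.Agent.Helper93.Sph

/-- Gaussian -/
noncomputable def gk {n : ℕ} (c : ℝ) (z : En n) : ℝ≥0∞ :=
  ENNReal.ofReal ((c / Real.pi) ^ ((n : ℝ) / 2) * Real.exp (-c * ‖z‖ ^ 2))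

lemma gk_meas {n : ℕ} : Measurable (fun p : ℝ × En n => gk p.1 p.2) := by
  unfold gk
  refine ENNReal.measurable_ofReal.comp ?_
  have h1 : Measurable (fun p : ℝ × En n => (p.1 / Real.pi) ^ ((n : ℝ) / 2)) :=
    (measurable_fst.div_const _).pow_const _
  have h2 : Measurable (fun p : ℝ × En n => Real.exp (-p.1 * ‖p.2‖ ^ 2)) := by fun_prop
  exact h1.mul h2

lemma gk_symm {n : ℕ} (c : ℝ) (x y : En n) : gk c (x - y) = gk c (y - x) := by
  rw [gk, gk, norm_sub_rev]

lemma gk_lint {n : ℕ} {c : ℝ} (hc : 0 < c) (x : En n) : ∫⁻ y, gk c (x - y) = 1 := by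
  have hpi := Real.pi_pos
  have h1 : ∀ y : En n, gk c (x - y) = ENNReal.ofReal ((c / Real.pi) ^ ((n : ℝ) / 2)) *
      ENNReal.ofReal (Real.exp (-c * ‖x - y‖ ^ 2)) := fun y => by
    rw [gk, ENNReal.ofReal_mul (by positivity)]
  simp_rw [h1]
  rw [lintegral_const_mul _ (by fun_prop), gauss_lint n hc x, ← ENNReal.ofReal_mul (by positivity),
    ← Real.mul_rpow (by positivity) (by positivity)]
  rw [show c / Real.pi * (Real.pi / c) = 1 by field_simp, Real.one_rpow, ENNReal.ofReal_one]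

lemma gk_lint' {n : ℕ} {c : ℝ} (hc : 0 < c) (x : En n) : ∫⁻ y, gk c (y - x) = 1 := by
  rw [← gk_lint hc x]
  exact lintegral_congr fun y => gk_symm _ _ _

lemma sq_id {n : ℕ} {a b : ℝ} (hab : a + b ≠ 0) (x x' y : En n) :
    a * ‖x - y‖ ^ 2 + b * ‖x' - y‖ ^ 2 =
      (a + b) * ‖(1 / (a + b)) • (a • x + b • x') - y‖ ^ 2 + a * b / (a + b) * ‖x - x'‖ ^ 2 := by
  obtain ⟨w, hw⟩ : ∃ w, w = (1 / (a + b)) • (a • x + b • x') - y := ⟨_, rfl⟩
  have hx : ∀ z : En n, z = (1 / (a + b)) • ((a + b) • z) := by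
    intro z
    rw [smul_smul, one_div, inv_mul_cancel₀ hab, one_smul]
  have h1 : x - y = w + (b / (a + b)) • (x - x') := by
    rw [hw, show b / (a + b) = 1 / (a + b) * b by ring, mul_smul, sub_add_eq_add_sub, ← smul_add]
    congr 1
    conv_lhs => rw [hx x]
    congr 1
    module
  have h2 : x' - y = w - (a / (a + b)) • (x - x') := by
    rw [hw, show a / (a + b) = 1 / (a + b) * a by ring, mul_smul, sub_right_comm, ← smul_sub]
    congr 1
    conv_lhs => rw [hx x']
    congr 1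
    module
  rw [h1, h2, ← hw, norm_add_sq_real, norm_sub_sq_real, inner_smul_right, inner_smul_right,
    norm_smul, norm_smul, mul_pow, mul_pow, Real.norm_eq_abs, Real.norm_eq_abs, sq_abs, sq_abs]
  field_simp
  ring

lemma gk_conv {n : ℕ} {a b : ℝ} (ha : 0 < a) (hb : 0 < b) (x x' : En n) :
    ∫⁻ y, gk a (x - y) * gk b (x' - y) = gk (a * b / (a + b)) (x - x') := by
  have hpi := Real.pi_pos
  have h1 : ∀ y : En n, gk a (x - y) * gk b (x' - y) =
      ENNReal.ofReal ((a / Real.pi) ^ ((n : ℝ) / 2) * (b / Real.pi) ^ ((n : ℝ) / 2) *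
        Real.exp (-(a * b / (a + b)) * ‖x - x'‖ ^ 2)) *
      ENNReal.ofReal (Real.exp (-(a + b) * ‖(1 / (a + b)) • (a • x + b • x') - y‖ ^ 2)) := by
    intro y
    rw [gk, gk, ← ENNReal.ofReal_mul (by positivity), ← ENNReal.ofReal_mul (by positivity)]
    congr 1
    have h2 : Real.exp (-a * ‖x - y‖ ^ 2) * Real.exp (-b * ‖x' - y‖ ^ 2) =
        Real.exp (-(a * b / (a + b)) * ‖x - x'‖ ^ 2) *
          Real.exp (-(a + b) * ‖(1 / (a + b)) • (a • x + b • x') - y‖ ^ 2) := by
      rw [← Real.exp_add, ← Real.exp_add]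
      congr 1
      have := sq_id (n := n) (by positivity : a + b ≠ 0) x x' y
      linarith
    calc _ = (a / Real.pi) ^ ((n : ℝ) / 2) * (b / Real.pi) ^ ((n : ℝ) / 2) *
          (Real.exp (-a * ‖x - y‖ ^ 2) * Real.exp (-b * ‖x' - y‖ ^ 2)) := by ring
      _ = _ := by rw [h2]; ring
  simp_rw [h1]
  rw [lintegral_const_mul _ (by fun_prop), gauss_lint n (by positivity : 0 < a + b), gk,
    ← ENNReal.ofReal_mul (by positivity)]
  congr 1
  have h3 : (a / Real.pi) ^ ((n : ℝ) / 2) * (b / Real.pi) ^ ((n : ℝ) / 2) *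
      (Real.pi / (a + b)) ^ ((n : ℝ) / 2) = (a * b / (a + b) / Real.pi) ^ ((n : ℝ) / 2) := by
    rw [← Real.mul_rpow (by positivity) (by positivity), ← Real.mul_rpow (by positivity) (by positivity)]
    congr 1
    field_simp
  rw [← h3]; ring

lemma gk_dom {n : ℕ} {a b : ℝ} (ha : 0 < a) (hab : a ≤ b) (z : En n) :
    gk (a * b / (a + b)) z ≤ 2 ^ n * gk (a / 2) z := by
  have hpi := Real.pi_pos
  have hb : 0 < b := ha.trans_le hab
  have h1 : a / 2 ≤ a * b / (a + b) := by
    rw [div_le_div_iff₀ (by norm_num) (by positivity)]; nlinarith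
  have h2 : a * b / (a + b) ≤ a := by
    rw [div_le_iff₀ (by positivity)]; nlinarith
  rw [gk, gk, show (2 : ℝ≥0∞) ^ n = ENNReal.ofReal (2 ^ n) by
    rw [ENNReal.ofReal_pow (by norm_num)]; norm_num, ← ENNReal.ofReal_mul (by positivity)]
  refine ENNReal.ofReal_le_ofReal ?_
  rw [← mul_assoc]
  refine mul_le_mul ?_ ?_ (Real.exp_pos _).le (by positivity)
  · calc (a * b / (a + b) / Real.pi) ^ ((n : ℝ) / 2) ≤ (2 * (a / 2 / Real.pi)) ^ ((n : ℝ) / 2) := by
          refine Real.rpow_le_rpow (by positivity) ?_ (by positivity)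
          rw [show 2 * (a / 2 / Real.pi) = a / Real.pi by ring]
          gcongr
      _ = (2 : ℝ) ^ ((n : ℝ) / 2) * (a / 2 / Real.pi) ^ ((n : ℝ) / 2) :=
          Real.mul_rpow (by norm_num) (by positivity)
      _ ≤ _ := by
          refine mul_le_mul_of_nonneg_right ?_ (by positivity)
          rw [← Real.rpow_natCast]
          refine Real.rpow_le_rpow_of_exponent_le (by norm_num) ?_
          have : (0 : ℝ) ≤ n := by positivity
          linarith
  · refine Real.exp_le_exp.2 ?_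
    have : 0 ≤ ‖z‖ ^ 2 := by positivity
    nlinarith

lemma gk_dom' {n : ℕ} {a b : ℝ} (ha : 0 < a) (hb : 0 < b) (z : En n) :
    gk (a * b / (a + b)) z ≤ 2 ^ n * (gk (a / 2) z + gk (b / 2) z) := by
  rcases le_total a b with h | h
  · exact (gk_dom ha h z).trans (by gcongr; exact le_self_add)
  · rw [mul_comm a, add_comm a]
    exact (gk_dom hb h z).trans (by gcongr; exact le_add_self)

attribute [local irreducible] gk

lemma cs {α : Type*} [MeasurableSpace α] (μ : Measure α) {f g : α → ℝ≥0∞} (hf : AEMeasurable f μ)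
    (hg : AEMeasurable g μ) :
    (∫⁻ a, f a * g a ∂μ) ^ 2 ≤ (∫⁻ a, f a ^ 2 ∂μ) * ∫⁻ a, g a ^ 2 ∂μ := by
  have h := ENNReal.lintegral_mul_le_Lp_mul_Lq μ Real.HolderConjugate.two_two hf hg
  calc (∫⁻ a, f a * g a ∂μ) ^ 2 ≤ ((∫⁻ a, f a ^ (2 : ℝ) ∂μ) ^ (1 / (2 : ℝ)) *
        (∫⁻ a, g a ^ (2 : ℝ) ∂μ) ^ (1 / (2 : ℝ))) ^ 2 := by gcongr; exact h
    _ = _ := by
      rw [mul_pow, ← ENNReal.rpow_natCast, ← ENNReal.rpow_natCast, ← ENNReal.rpow_mul,
        ← ENNReal.rpow_mul]
      norm_num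

/-- mean with variable width -/
noncomputable def Tm {n : ℕ} (c : En n → ℝ) (g : En n → ℝ≥0∞) (x : En n) : ℝ≥0∞ :=
  ∫⁻ y, gk (c x) (x - y) * g y

lemma K_meas {n : ℕ} {c : En n → ℝ} (hc : Measurable c) :
    Measurable (fun p : En n × En n => gk (c p.1) (p.1 - p.2)) :=
  gk_meas.comp ((hc.comp measurable_fst).prodMk (measurable_fst.sub measurable_snd))

lemma Tm_meas {n : ℕ} {c : En n → ℝ} (hc : Measurable c) {g : En n → ℝ≥0∞} (hg : Measurable g) :
    Measurable (Tm c g) :=
  ((K_meas hc).mul (hg.comp measurable_snd)).lintegral_prod_right'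

lemma Ky_meas {n : ℕ} (r : ℝ) (x : En n) : Measurable (fun y : En n => gk r (x - y)) :=
  gk_meas.comp (measurable_const.prodMk (measurable_const.sub measurable_id))

lemma young {n : ℕ} {r : ℝ} (hr : 0 < r) {g : En n → ℝ≥0∞} (hg : Measurable g) :
    ∫⁻ x, (Tm (fun _ => r) g x) ^ 2 ≤ ∫⁻ y, g y ^ 2 := by
  have h1 : ∀ x, (Tm (fun _ => r) g x) ^ 2 ≤ ∫⁻ y, gk r (x - y) * g y ^ 2 := by
    intro x
    have hKx := Ky_meas r x
    have h2 := cs (volume.withDensity (fun y => gk r (x - y))) (f := fun _ => 1) (g := g)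
      aemeasurable_const hg.aemeasurable
    have e1 : ∀ F : En n → ℝ≥0∞, Measurable F →
        ∫⁻ a, F a ∂(volume.withDensity (fun y => gk r (x - y))) = ∫⁻ y, gk r (x - y) * F y :=
      fun F hF => lintegral_withDensity_eq_lintegral_mul _ hKx hF
    rw [e1 (fun a => 1 * g a) (hg.const_mul 1), e1 (fun _ => 1 ^ 2) measurable_const,
      e1 (fun a => g a ^ 2) (hg.pow_const 2)] at h2
    simp only [one_mul, one_pow, mul_one, gk_lint hr x] at h2
    exact h2
  refine (lintegral_mono h1).trans (le_of_eq ?_)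
  have hm : Measurable (fun p : En n × En n => gk r (p.1 - p.2) * g p.2 ^ 2) :=
    (K_meas measurable_const).mul ((hg.pow_const 2).comp measurable_snd)
  rw [lintegral_lintegral_swap (f := fun x y => gk r (x - y) * g y ^ 2) hm.aemeasurable]
  refine lintegral_congr fun y => ?_
  have hmy : Measurable (fun x : En n => gk r (x - y)) :=
    gk_meas.comp (measurable_const.prodMk (measurable_id.sub measurable_const))
  rw [lintegral_mul_const _ hmy, gk_lint' hr, one_mul]

/-- bound for selections from `m` widths -/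
def Bd (n m : ℕ) (K : ℝ≥0) : Prop :=
  ∀ c : En n → ℝ, Measurable c → ∀ F : Finset ℝ, F.card ≤ m → (∀ x, c x ∈ F) → (∀ r ∈ F, 0 < r) →
    ∀ g : En n → ℝ≥0∞, Measurable g → ∫⁻ x, (Tm c g x) ^ 2 ≤ K * ∫⁻ y, g y ^ 2

lemma Bd_mono {n m : ℕ} {K K' : ℝ≥0} (h : K ≤ K') (hK : Bd n m K) : Bd n m K' :=
  fun c hc F h1 h2 h3 g hg => (hK c hc F h1 h2 h3 g hg).trans (by gcongr)

lemma Bd_triv (n m : ℕ) : Bd n m m := by
  intro c hc F h1 h2 h3 g hg
  have h4 : ∀ x, (Tm c g x) ^ 2 ≤ ∑ r ∈ F, (Tm (fun _ => r) g x) ^ 2 := by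
    intro x
    have h5 : Tm c g x = Tm (fun _ => c x) g x := rfl
    rw [h5]
    exact Finset.single_le_sum (f := fun r => (Tm (fun _ => r) g x) ^ 2) (fun _ _ => zero_le) (h2 x)
  refine (lintegral_mono h4).trans ?_
  rw [lintegral_finsetSum _ fun r _ => (Tm_meas measurable_const hg).pow_const 2]
  calc ∑ r ∈ F, ∫⁻ x, (Tm (fun _ => r) g x) ^ 2 ≤ ∑ _r ∈ F, ∫⁻ y, g y ^ 2 :=
        Finset.sum_le_sum fun r hr => young (h3 r hr) hg
    _ = F.card * ∫⁻ y, g y ^ 2 := by rw [Finset.sum_const, nsmul_eq_mul]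
    _ ≤ _ := by
      gcongr
      exact_mod_cast h1

/-- constant -/
noncomputable def c1 (n : ℕ) : ℝ≥0 := 2 * 2 ^ n

/-- composition of two means -/
lemma two_means {n : ℕ} {c : En n → ℝ} (hc : Measurable c) (hcx : ∀ x, 0 < c x)
    {u : En n → ℝ≥0∞} (hu : Measurable u) :
    ∫⁻ y, (∫⁻ x, gk (c x) (x - y) * u x) ^ 2 ≤
      c1 n * ∫⁻ x, u x * Tm (fun x => c x / 2) u x := by
  have hKm := K_meas hc
  have hKx : ∀ y, Measurable (fun x => gk (c x) (x - y)) := fun y => hKm.comp (measurable_id.prodMk measurable_const)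
  have s1 : ∀ y, (∫⁻ x, gk (c x) (x - y) * u x) ^ 2 =
      ∫⁻ z : En n × En n, (gk (c z.1) (z.1 - y) * gk (c z.2) (z.2 - y)) * (u z.1 * u z.2)
        ∂(volume.prod volume) := by
    intro y
    have hm1 : Measurable (fun x => gk (c x) (x - y) * u x) := (hKx y).mul hu
    rw [sq, ← lintegral_prod_mul hm1.aemeasurable hm1.aemeasurable]
    refine lintegral_congr fun z => ?_
    ring
  have m3 : Measurable (fun p : En n × (En n × En n) =>
      (gk (c p.2.1) (p.2.1 - p.1) * gk (c p.2.2) (p.2.2 - p.1)) * (u p.2.1 * u p.2.2)) := by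
    have b1 : Measurable (fun p : En n × (En n × En n) => p.2.1) := measurable_fst.comp measurable_snd
    have b2 : Measurable (fun p : En n × (En n × En n) => p.2.2) := measurable_snd.comp measurable_snd
    have b0 : Measurable (fun p : En n × (En n × En n) => p.1) := measurable_fst
    have a1 : Measurable (fun p : En n × (En n × En n) => gk (c p.2.1) (p.2.1 - p.1)) := by
      have := hKm.comp (b1.prodMk b0)
      simpa only [Function.comp_def] using this
    have a2 : Measurable (fun p : En n × (En n × En n) => gk (c p.2.2) (p.2.2 - p.1)) := by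
      have := hKm.comp (b2.prodMk b0)
      simpa only [Function.comp_def] using this
    have a3 : Measurable (fun p : En n × (En n × En n) => u p.2.1 * u p.2.2) :=
      (hu.comp b1).mul (hu.comp b2)
    exact (a1.mul a2).mul a3
  have s2 : ∫⁻ y, (∫⁻ x, gk (c x) (x - y) * u x) ^ 2 =
      ∫⁻ z : En n × En n, gk (c z.1 * c z.2 / (c z.1 + c z.2)) (z.1 - z.2) * (u z.1 * u z.2)
        ∂(volume.prod volume) := by
    simp_rw [s1]
    rw [lintegral_lintegral_swap (f := fun (y : En n) (z : En n × En n) => (gk (c z.1) (z.1 - y) * gk (c z.2) (z.2 - y)) *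
      (u z.1 * u z.2)) m3.aemeasurable]
    refine lintegral_congr fun z => ?_
    have b1 : Measurable (fun y => gk (c z.1) (z.1 - y) * gk (c z.2) (z.2 - y)) :=
      (Ky_meas _ _).mul (Ky_meas _ _)
    rw [lintegral_mul_const _ b1, gk_conv (hcx z.1) (hcx z.2)]
  rw [s2]
  have hc2 : Measurable (fun x => c x / 2) := hc.div_const 2
  have hK2 := K_meas hc2
  have mm1 : Measurable (fun p : En n × En n => u p.1 * (gk (c p.1 / 2) (p.1 - p.2) * u p.2)) :=
    (hu.comp measurable_fst).mul (hK2.mul (hu.comp measurable_snd))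
  have mm2 : Measurable (fun p : En n × En n => u p.2 * (gk (c p.2 / 2) (p.2 - p.1) * u p.1)) :=
    mm1.comp measurable_swap
  have s5 : ∫⁻ z : En n × En n, u z.1 * (gk (c z.1 / 2) (z.1 - z.2) * u z.2) ∂(volume.prod volume) =
      ∫⁻ x, u x * Tm (fun x => c x / 2) u x := by
    rw [lintegral_prod _ mm1.aemeasurable]
    refine lintegral_congr fun x => ?_
    have b2 : Measurable (fun x' => gk (c x / 2) (x - x') * u x') := (Ky_meas _ _).mul hu
    dsimp only
    rw [lintegral_const_mul _ b2]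
    rfl
  have s6 : ∫⁻ z : En n × En n, u z.2 * (gk (c z.2 / 2) (z.2 - z.1) * u z.1) ∂(volume.prod volume) =
      ∫⁻ x, u x * Tm (fun x => c x / 2) u x := by
    rw [← s5]
    exact lintegral_prod_swap (fun z : En n × En n => u z.1 * (gk (c z.1 / 2) (z.1 - z.2) * u z.2))
  calc _ ≤ ∫⁻ z : En n × En n, 2 ^ n * (u z.1 * (gk (c z.1 / 2) (z.1 - z.2) * u z.2) +
            u z.2 * (gk (c z.2 / 2) (z.2 - z.1) * u z.1)) ∂(volume.prod volume) := by
        refine lintegral_mono fun z => ?_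
        refine (mul_le_mul_left (gk_dom' (hcx z.1) (hcx z.2) (z.1 - z.2)) _).trans (le_of_eq ?_)
        rw [gk_symm (c z.2 / 2) z.2 z.1]
        ring
    _ = 2 ^ n * (∫⁻ z : En n × En n, u z.1 * (gk (c z.1 / 2) (z.1 - z.2) * u z.2) ∂(volume.prod volume) +
          ∫⁻ z : En n × En n, u z.2 * (gk (c z.2 / 2) (z.2 - z.1) * u z.1) ∂(volume.prod volume)) := by
        have mm3 : Measurable (fun z : En n × En n => u z.1 * (gk (c z.1 / 2) (z.1 - z.2) * u z.2) +
            u z.2 * (gk (c z.2 / 2) (z.2 - z.1) * u z.1)) := mm1.add mm2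
        rw [lintegral_const_mul _ mm3, lintegral_add_left mm1]
    _ = _ := by
        rw [s5, s6, ← two_mul, ← mul_assoc, c1]
        push_cast
        ring

lemma Bd_step {n m : ℕ} {K : ℝ≥0} (hK : Bd n m K) : Bd n m (c1 n * NNReal.sqrt K) := by
  intro c hc F h1 h2 h3 g hg
  rcases eq_or_ne (∫⁻ y, g y ^ 2) ⊤ with hinf | hfin
  · rw [hinf]
    rcases eq_or_ne (c1 n * NNReal.sqrt K) 0 with h0 | h0
    · have hK0 : K = 0 := by
        have hc1 : c1 n ≠ 0 := by unfold c1; positivity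
        rcases mul_eq_zero.1 h0 with h | h
        · exact absurd h hc1
        · exact NNReal.sqrt_eq_zero.1 h
      have := hK c hc F h1 h2 h3 g hg
      rw [hK0] at this
      simpa [h0] using this
    · rw [ENNReal.mul_top (by exact_mod_cast h0)]
      exact le_top
  · obtain ⟨u, hu⟩ : ∃ u, u = Tm c g := ⟨_, rfl⟩
    have hum : Measurable u := by rw [hu]; exact Tm_meas hc hg
    obtain ⟨A, hA⟩ : ∃ A, A = ∫⁻ x, u x ^ 2 := ⟨_, rfl⟩
    have hAfin : A ≠ ⊤ := by
      have := Bd_triv n m c hc F h1 h2 h3 g hg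
      rw [← hu, ← hA] at this
      exact (this.trans_lt (ENNReal.mul_lt_top (by simp) hfin.lt_top)).ne
    have hcx : ∀ x, 0 < c x := fun x => h3 _ (h2 x)
    have hKm := K_meas hc
    have hKx : ∀ y, Measurable (fun x => gk (c x) (x - y)) := fun y =>
      hKm.comp (measurable_id.prodMk measurable_const)
    obtain ⟨w, hw⟩ : ∃ w : En n → ℝ≥0∞, ∀ y, w y = ∫⁻ x, gk (c x) (x - y) * u x := ⟨_, fun _ => rfl⟩
    have hwm : Measurable w := by
      have : w = fun y => ∫⁻ x, gk (c x) (x - y) * u x := funext hw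
      rw [this]
      have hm : Measurable (fun p : En n × En n => gk (c p.1) (p.1 - p.2) * u p.1) :=
        hKm.mul (hum.comp measurable_fst)
      exact hm.lintegral_prod_left'
    have e1 : A = ∫⁻ y, g y * w y := by
      rw [hA]
      have e0 : ∀ x, u x ^ 2 = ∫⁻ y, u x * (gk (c x) (x - y) * g y) := by
        intro x
        have hm : Measurable (fun y => gk (c x) (x - y) * g y) := (Ky_meas _ _).mul hg
        rw [lintegral_const_mul _ hm, sq]
        congr 1
        rw [hu]; rfl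
      simp_rw [e0]
      have hm : Measurable (fun p : En n × En n => u p.1 * (gk (c p.1) (p.1 - p.2) * g p.2)) :=
        (hum.comp measurable_fst).mul (hKm.mul (hg.comp measurable_snd))
      rw [lintegral_lintegral_swap (f := fun x y => u x * (gk (c x) (x - y) * g y)) hm.aemeasurable]
      refine lintegral_congr fun y => ?_
      have hm2 : Measurable (fun x => gk (c x) (x - y) * u x) := (hKx y).mul hum
      rw [hw, ← lintegral_const_mul _ hm2]
      refine lintegral_congr fun x => ?_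
      ring
    have e2 : ∫⁻ y, w y ^ 2 ≤ c1 n * ∫⁻ x, u x * Tm (fun x => c x / 2) u x := by
      simp_rw [hw]
      exact two_means hc hcx hum
    have hc2 : Measurable (fun x => c x / 2) := hc.div_const 2
    have e3 : (∫⁻ x, u x * Tm (fun x => c x / 2) u x) ^ 2 ≤ A * (K * A) := by
      refine (cs volume hum.aemeasurable (Tm_meas hc2 hum).aemeasurable).trans ?_
      rw [← hA]
      refine mul_le_mul_right ?_ _
      classical
      rw [hA]
      refine hK _ hc2 (F.image (fun r => r / 2)) (Finset.card_image_le.trans h1) (fun x =>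
        Finset.mem_image_of_mem _ (h2 x)) ?_ u hum
      intro r hr
      obtain ⟨s, hs, rfl⟩ := Finset.mem_image.1 hr
      have := h3 s hs
      positivity
    have e4 : ∫⁻ x, u x * Tm (fun x => c x / 2) u x ≤ NNReal.sqrt K * A := by
      have h7 : (∫⁻ x, u x * Tm (fun x => c x / 2) u x) ^ 2 ≤ ((NNReal.sqrt K : ℝ≥0∞) * A) ^ 2 := by
        refine e3.trans (le_of_eq ?_)
        rw [mul_pow, ← ENNReal.coe_pow, NNReal.sq_sqrt]
        ring
      exact (ENNReal.pow_le_pow_left_iff (by norm_num)).1 h7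
    have e5 : A * A ≤ (c1 n * NNReal.sqrt K * ∫⁻ y, g y ^ 2) * A := by
      calc A * A = (∫⁻ y, g y * w y) ^ 2 := by rw [← e1, sq]
        _ ≤ (∫⁻ y, g y ^ 2) * ∫⁻ y, w y ^ 2 := cs volume hg.aemeasurable hwm.aemeasurable
        _ ≤ (∫⁻ y, g y ^ 2) * (c1 n * (NNReal.sqrt K * A)) := by
            gcongr
            exact e2.trans (by gcongr)
        _ = _ := by ring
    rw [← hu, ← hA]
    rcases eq_or_ne A 0 with h0 | h0
    · rw [h0]; exact zero_le
    · have := (ENNReal.mul_le_mul_iff_left h0 hAfin).1 e5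
      push_cast
      exact this

theorem Bd_final (n m : ℕ) : Bd n m (c1 n ^ 2 + 1) := by
  set S : Set ℝ≥0 := {K | Bd n m K} with hS
  have hne : S.Nonempty := ⟨m, Bd_triv n m⟩
  set K₀ := sInf S with hK₀
  have h1 : ∀ K ∈ S, K₀ ≤ c1 n * NNReal.sqrt K := fun K hK =>
    csInf_le (OrderBot.bddBelow _) (Bd_step hK)
  have h2 : K₀ ≤ c1 n ^ 2 := by
    by_contra hc
    push Not at hc
    -- `K₀ > c1²`: choose `K` close to `K₀`
    have h3 : c1 n * NNReal.sqrt K₀ < K₀ := by
      have hpos : 0 < K₀ := lt_of_le_of_lt zero_le hc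
      have hsq : 0 < NNReal.sqrt K₀ := NNReal.sqrt_pos.2 hpos
      have h4 : c1 n < NNReal.sqrt K₀ := by
        rw [← NNReal.sqrt_sq (c1 n)]
        exact NNReal.sqrt_lt_sqrt.2 hc
      calc c1 n * NNReal.sqrt K₀ < NNReal.sqrt K₀ * NNReal.sqrt K₀ :=
            mul_lt_mul_of_pos_right h4 hsq
        _ = K₀ := NNReal.mul_self_sqrt _
    have hcont : Continuous (fun K : ℝ≥0 => c1 n * NNReal.sqrt K) :=
      continuous_const.mul NNReal.continuous_sqrt
    have h5 : ∀ᶠ K in 𝓝 K₀, c1 n * NNReal.sqrt K < K₀ :=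
      (hcont.tendsto K₀).eventually_lt_const h3
    have h6 : ∃ᶠ K in 𝓝 K₀, K ∈ S := by
      have := (csInf_mem_closure hne (OrderBot.bddBelow S))
      exact mem_closure_iff_frequently.1 this
    obtain ⟨K, hKS, hK⟩ := (h6.and_eventually h5).exists
    exact absurd (h1 K hKS) (not_le.2 hK)
  obtain ⟨K, hKS, hK⟩ := exists_lt_of_csInf_lt hne (show K₀ < c1 n ^ 2 + 1 from
    lt_of_le_of_lt h2 (lt_add_one _))
  exact Bd_mono hK.le hKS

end Pool.Agent.E8helper16.XR
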