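import Mathlib
import Pool.Agent.Helper93.Sph.R
import Pool.Agent.Helper93.Sph.W1
import Pool.Agent.E8helper16.XR.C

/-!
# The lacunary maximal function of the ball partial sums
-/

set_option autoImplicit false

open MeasureTheory Set Filter Topology
open scoped ENNReal NNReal RealInnerProductSpace

namespace Pool.Agent.E8helper16.XR

open Pool.Agent.Helper93.Sph

lemma sel {n : ℕ} {F : ℕ → En n → ℝ≥0∞} (hF : ∀ i, Measurable (F i)) (m : ℕ) :
    ∃ κ : En n → ℕ, Measurable κ ∧ (∀ x, κ x ≤ m) ∧ Measurable (fun x => F (κ x) x) ∧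
      ∀ x, ∀ i ≤ m, F i x ≤ F (κ x) x := by
  induction m with
  | zero =>
    refine ⟨fun _ => 0, measurable_const, fun _ => le_rfl, hF 0, fun x i hi => ?_⟩
    rw [Nat.le_zero.1 hi]
  | succ m ih =>
    obtain ⟨κ, h1, h2, h3, h4⟩ := ih
    have hs : MeasurableSet {x | F (κ x) x ≤ F (m + 1) x} := measurableSet_le h3 (hF _)
    classical
    refine ⟨fun x => if F (κ x) x ≤ F (m + 1) x then m + 1 else κ x,
      Measurable.ite hs measurable_const h1, fun x => ?_, ?_, fun x i hi => ?_⟩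
    · dsimp only
      split_ifs
      · exact le_rfl
      · exact (h2 x).trans (Nat.le_succ m)
    · have : (fun x => F (if F (κ x) x ≤ F (m + 1) x then m + 1 else κ x) x) =
          fun x => if F (κ x) x ≤ F (m + 1) x then F (m + 1) x else F (κ x) x := by
        funext x
        split_ifs <;> rfl
      rw [this]
      exact Measurable.ite hs (hF _) h3
    · rcases Nat.lt_or_ge i (m + 1) with h | h
      · have h5 := h4 x i (Nat.lt_succ_iff.1 h)
        dsimp only
        split_ifs with h6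
        · exact h5.trans h6
        · exact h5
      · have h7 : i = m + 1 := le_antisymm hi h
        rw [h7]
        dsimp only
        split_ifs with h6
        · exact le_rfl
        · exact (not_le.1 h6).le

/-- maximal inequality for the Gaussian means -/
theorem max_gauss {n : ℕ} {c : ℕ → ℝ} (hc : ∀ i, 0 < c i) {g : En n → ℝ≥0∞} (hg : Measurable g) :
    ∫⁻ x, ⨆ i, (Tm (fun _ => c i) g x) ^ 2 ≤ ((c1 n ^ 2 + 1 : ℝ≥0) : ℝ≥0∞) * ∫⁻ y, g y ^ 2 := by
  have hF : ∀ i, Measurable (fun x => (Tm (fun _ => c i) g x) ^ 2) := fun i =>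
    (Tm_meas measurable_const hg).pow_const 2
  have h1 : ∀ x, ⨆ i, (Tm (fun _ => c i) g x) ^ 2 =
      ⨆ m, ⨆ i ∈ Finset.range (m + 1), (Tm (fun _ => c i) g x) ^ 2 := by
    intro x
    refine le_antisymm (iSup_le fun i => ?_) (iSup_le fun m => iSup₂_le fun i _ => le_iSup (fun i => (Tm (fun _ => c i) g x) ^ 2) i)
    exact le_iSup_of_le i (le_iSup₂_of_le i (Finset.mem_range.2 (Nat.lt_succ_self i)) le_rfl)
  simp_rw [h1]
  rw [lintegral_iSup]
  · refine iSup_le fun m => ?_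
    obtain ⟨κ, k1, k2, k3, k4⟩ := sel hF m
    have h2 : ∀ x, ⨆ i ∈ Finset.range (m + 1), (Tm (fun _ => c i) g x) ^ 2 ≤
        (Tm (fun x => c (κ x)) g x) ^ 2 := by
      intro x
      refine iSup₂_le fun i hi => ?_
      exact k4 x i (Nat.lt_succ_iff.1 (Finset.mem_range.1 hi))
    refine (lintegral_mono h2).trans ?_
    classical
    refine Bd_final n (m + 1) (fun x => c (κ x)) ((measurable_from_nat (f := c)).comp k1)
      ((Finset.range (m + 1)).image c) (Finset.card_image_le.trans (by simp)) (fun x => ?_) ?_ g hg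
    · exact Finset.mem_image_of_mem _ (Finset.mem_range.2 (Nat.lt_succ_of_le (k2 x)))
    · intro r hr
      obtain ⟨i, _, rfl⟩ := Finset.mem_image.1 hr
      exact hc i
  · intro m
    exact Measurable.iSup fun i => Measurable.iSup fun _ => hF i
  · intro m m' hm x
    refine iSup₂_le fun i hi => ?_
    exact le_iSup₂_of_le i (Finset.mem_range.2 ((Finset.mem_range.1 hi).trans_le (Nat.succ_le_succ hm))) le_rfl

/-- Gaussian multiplier -/
noncomputable def ga {n : ℕ} (c : ℝ) (ξ : En n) : ℝ := Real.exp (-(Real.pi ^ 2 / c) * ‖ξ‖ ^ 2)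

/-- smoothed partial sums -/
noncomputable def Hm {n : ℕ} (c : ℝ) (G : En n → ℂ) (x : En n) : ℂ := Fi (fun ξ => (ga c ξ : ℂ) * G ξ) x

lemma ga_cont {n : ℕ} (c : ℝ) : Continuous (ga (n := n) c) := by unfold ga; fun_prop

lemma ga_le {n : ℕ} {c : ℝ} (hc : 0 < c) (ξ : En n) : ga c ξ ≤ 1 := by
  unfold ga
  rw [Real.exp_le_one_iff]
  have : 0 ≤ Real.pi ^ 2 / c * ‖ξ‖ ^ 2 := by positivity
  linarith

lemma ga_pos {n : ℕ} (c : ℝ) (ξ : En n) : 0 < ga c ξ := Real.exp_pos _

lemma ga_eq {n : ℕ} {c : ℝ} (hc : 0 < c) (ξ : En n) :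
    (ga c ξ : ℂ) = ∫ z : En n, ek z ξ * (((c / Real.pi) ^ ((n : ℝ) / 2) * Real.exp (-c * ‖z‖ ^ 2) : ℝ) : ℂ) := by
  have hpi := Real.pi_pos
  have h := gauss_ft (n := n) hc ξ
  have h1 : ∀ z : En n, ek z ξ * (((c / Real.pi) ^ ((n : ℝ) / 2) * Real.exp (-c * ‖z‖ ^ 2) : ℝ) : ℂ) =
      (((c / Real.pi) ^ ((n : ℝ) / 2) : ℝ) : ℂ) *
        (Complex.exp (2 * Real.pi * Complex.I * ((⟪ξ, z⟫ : ℝ) : ℂ)) * ((Real.exp (-c * ‖z‖ ^ 2) : ℝ) : ℂ)) := by
    intro z
    rw [ek, real_inner_comm]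
    push_cast
    ring
  simp_rw [h1]
  rw [integral_const_mul, h, ← Complex.ofReal_mul, ← mul_assoc, ← Real.mul_rpow (by positivity) (by positivity),
    show c / Real.pi * (Real.pi / c) = 1 by field_simp, Real.one_rpow, one_mul]
  rfl

lemma Hm_eq {n : ℕ} {c : ℝ} (hc : 0 < c) {G : En n → ℂ} (hG : Integrable G) (x : En n) :
    Hm c G x = ∫ z : En n, (((c / Real.pi) ^ ((n : ℝ) / 2) * Real.exp (-c * ‖z‖ ^ 2) : ℝ) : ℂ) *
      Fi G (x + z) := by
  have hpi := Real.pi_pos
  set p : En n → ℝ := fun z => (c / Real.pi) ^ ((n : ℝ) / 2) * Real.exp (-c * ‖z‖ ^ 2) with hp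
  have hpint : Integrable p := (gint hc).const_mul _
  rw [Hm, Fi]
  have h1 : ∀ ξ : En n, ek x ξ * ((ga c ξ : ℂ) * G ξ) = ∫ z : En n, ek (x + z) ξ * G ξ * (p z : ℂ) := by
    intro ξ
    rw [ga_eq hc ξ]
    have : ∀ z : En n, ek (x + z) ξ * G ξ * (p z : ℂ) = (ek x ξ * G ξ) * (ek z ξ * (p z : ℂ)) := by
      intro z; rw [ek_add]; ring
    simp_rw [this]
    rw [integral_const_mul]
    ring
  simp_rw [h1]
  rw [integral_integral_swap]
  · refine integral_congr_ae (Eventually.of_forall fun z => ?_)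
    dsimp only
    rw [integral_mul_const, Fi, mul_comm]
  · have hb : Integrable (fun q : En n × En n => G q.1 * (p q.2 : ℂ)) (volume.prod volume) :=
      hG.mul_prod hpint.ofReal
    have hc3 : Continuous (fun q : En n × En n => ek (x + q.2) q.1) :=
      ek_cont.comp (by fun_prop : Continuous fun q : En n × En n => (x + q.2, q.1))
    have := hb.bdd_mul (c := 1) hc3.aestronglyMeasurable
      (Eventually.of_forall fun q => (ek_norm _ _).le)
    refine this.congr (Eventually.of_forall fun q => ?_)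
    simp only [Function.uncurry]
    ring

lemma Hm_le {n : ℕ} {c : ℝ} (hc : 0 < c) {G : En n → ℂ} (hG : Integrable G) (x : En n) :
    ‖Hm c G x‖ₑ ≤ Tm (fun _ => c) (fun y => ‖Fi G y‖ₑ) x := by
  have hpi := Real.pi_pos
  rw [Hm_eq hc hG]
  refine (enorm_integral_le_lintegral_enorm _).trans (le_of_eq ?_)
  have h1 : ∀ z : En n, ‖(((c / Real.pi) ^ ((n : ℝ) / 2) * Real.exp (-c * ‖z‖ ^ 2) : ℝ) : ℂ) *
      Fi G (x + z)‖ₑ = gk c z * ‖Fi G (x + z)‖ₑ := by
    intro z
    rw [enorm_mul, gk, ← ofReal_norm, Complex.norm_real, Real.norm_eq_abs, abs_of_nonneg (by positivity)]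
  simp_rw [h1]
  rw [Tm, ← lintegral_add_left_eq_self (fun y => gk c (x - y) * ‖Fi G y‖ₑ) x]
  refine lintegral_congr fun z => ?_
  rw [show x - (x + z) = -z by abel, gk, gk, norm_neg]

end Pool.Agent.E8helper16.XR
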