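import Mathlib
import Pool.Agent.E8helper16.XR.D

/-!
# The lacunary maximal function of the ball partial sums, end
-/

set_option autoImplicit false

open MeasureTheory Set Filter Topology
open scoped ENNReal NNReal RealInnerProductSpace

namespace Pool.Agent.E8helper16.XR

open Pool.Agent.Helper93.Sph

lemma ga_memLp {n : ℕ} {c : ℝ} (hc : 0 < c) : MemLp (fun ξ : En n => (ga c ξ : ℂ)) 2 := by
  have hpi := Real.pi_pos
  have h1 : MemLp (ga (n := n) c) 2 := by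
    rw [memLp_two_iff_integrable_sq (ga_cont c).aestronglyMeasurable]
    have := gint (n := n) (b := 2 * (Real.pi ^ 2 / c)) (by positivity)
    refine this.congr (Eventually.of_forall fun ξ => ?_)
    simp only [ga]
    rw [sq (Real.exp _), ← Real.exp_add]
    congr 1
    ring
  exact h1.ofReal

lemma ga_int {n : ℕ} {c : ℝ} (hc : 0 < c) {G : En n → ℂ} (hG : MemLp G 2) :
    Integrable (fun ξ => (ga c ξ : ℂ) * G ξ) := (ga_memLp hc).integrable_mul hG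

/-- truncation -/
noncomputable def tr {n : ℕ} (M : ℕ) (G : En n → ℂ) : En n → ℂ := (Metric.closedBall (0 : En n) M).indicator G

lemma tr_int {n : ℕ} (M : ℕ) {G : En n → ℂ} (hG : MemLp G 2) : Integrable (tr M G) :=
  piece_int hG measurableSet_closedBall measure_closedBall_lt_top

lemma tr_le {n : ℕ} (M : ℕ) (G : En n → ℂ) (ξ : En n) : ‖tr M G ξ‖ ≤ ‖G ξ‖ := by
  unfold tr
  exact norm_indicator_le_norm_self _ _

lemma Hm_tendsto {n : ℕ} {c : ℝ} (hc : 0 < c) {G : En n → ℂ} (hG : MemLp G 2) (x : En n) :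
    Tendsto (fun M : ℕ => Hm c (tr M G) x) atTop (𝓝 (Hm c G x)) := by
  unfold Hm Fi
  refine tendsto_integral_of_dominated_convergence (fun ξ => ‖(ga c ξ : ℂ) * G ξ‖) ?_
    (ga_int hc hG).norm ?_ ?_
  · intro M
    have h1 : Integrable (fun ξ => (ga c ξ : ℂ) * tr M G ξ) :=
      ga_int hc (hG.indicator measurableSet_closedBall)
    exact (ek_int h1 x).aestronglyMeasurable
  · intro M
    refine Eventually.of_forall fun ξ => ?_
    rw [norm_mul, ek_norm, one_mul, norm_mul, norm_mul]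
    gcongr
    exact tr_le M G ξ
  · refine Eventually.of_forall fun ξ => ?_
    refine tendsto_const_nhds.congr' ?_
    filter_upwards [tendsto_natCast_atTop_atTop.eventually_ge_atTop ‖ξ‖] with M hM
    rw [tr, indicator_of_mem]
    simpa using hM

lemma Hm_cont {n : ℕ} {c : ℝ} (hc : 0 < c) {G : En n → ℂ} (hG : MemLp G 2) : Continuous (Hm c G) :=
  Fi_cont (ga_int hc hG)

/-- maximal inequality for the smoothed partial sums -/
theorem max_Hm {n : ℕ} {c : ℕ → ℝ} (hc : ∀ i, 0 < c i) {G : En n → ℂ} (hG : MemLp G 2) :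
    ∫⁻ x, ⨆ i, ‖Hm (c i) G x‖ₑ ^ 2 ≤ ((c1 n ^ 2 + 1 : ℝ≥0) : ℝ≥0∞) * ∫⁻ ξ, ‖G ξ‖ₑ ^ 2 := by
  have h1 : ∀ M : ℕ, ∫⁻ x, ⨆ i, ‖Hm (c i) (tr M G) x‖ₑ ^ 2 ≤
      ((c1 n ^ 2 + 1 : ℝ≥0) : ℝ≥0∞) * ∫⁻ ξ, ‖G ξ‖ₑ ^ 2 := by
    intro M
    have hi := tr_int M hG
    have h2 : ∫⁻ x, ⨆ i, ‖Hm (c i) (tr M G) x‖ₑ ^ 2 ≤
        ∫⁻ x, ⨆ i, (Tm (fun _ => c i) (fun y => ‖Fi (tr M G) y‖ₑ) x) ^ 2 :=
      lintegral_mono fun x => iSup_mono fun i => pow_le_pow_left' (Hm_le (hc i) hi x) 2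
    refine h2.trans ((max_gauss hc (Fi_cont hi).measurable.enorm).trans ?_)
    refine mul_le_mul_right ((bessel hi).trans (lintegral_mono fun ξ => ?_)) _
    exact pow_le_pow_left' (enorm_le_iff_norm_le.2 (tr_le M G ξ)) 2
  have h3 : ∀ x, ⨆ i, ‖Hm (c i) G x‖ₑ ^ 2 ≤ liminf (fun M : ℕ => ⨆ i, ‖Hm (c i) (tr M G) x‖ₑ ^ 2) atTop := by
    intro x
    refine iSup_le fun i => ?_
    have h4 : Tendsto (fun M : ℕ => ‖Hm (c i) (tr M G) x‖ₑ ^ 2) atTop (𝓝 (‖Hm (c i) G x‖ₑ ^ 2)) :=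
      ENNReal.Tendsto.pow (Hm_tendsto (hc i) hG x).enorm
    rw [← h4.liminf_eq]
    exact liminf_le_liminf (Eventually.of_forall fun M => le_iSup (fun i => ‖Hm (c i) (tr M G) x‖ₑ ^ 2) i)
  refine (lintegral_mono h3).trans ((lintegral_liminf_le fun M => ?_).trans ?_)
  · exact Measurable.iSup fun i => (Hm_cont (hc i) (hG.indicator measurableSet_closedBall)).measurable.enorm.pow_const 2
  · exact liminf_le_of_le (by isBoundedDefault) fun b hb => (hb.exists.choose_spec).trans (h1 _)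

/-- multiplier of the difference -/
noncomputable def mk {n : ℕ} (k : ℤ) (ξ : En n) : ℝ :=
  (shell n 0 (2 ^ k)).indicator (fun _ => (1 : ℝ)) ξ - ga (Real.pi ^ 2 * 4 ^ k) ξ

lemma ga_val {n : ℕ} (k : ℤ) (ξ : En n) : ga (Real.pi ^ 2 * 4 ^ k) ξ = Real.exp (-(‖ξ‖ ^ 2 / 4 ^ k)) := by
  have hpi := Real.pi_pos
  unfold ga
  congr 1
  field_simp

lemma mk_in {n : ℕ} {k : ℤ} {ξ : En n} (h : ‖ξ‖ < 2 ^ k) : |mk k ξ| ≤ ‖ξ‖ ^ 2 / 4 ^ k := by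
  rw [mk, indicator_of_mem (show ξ ∈ shell n 0 (2 ^ k) from ⟨norm_nonneg _, h⟩), ga_val]
  have h1 := Real.add_one_le_exp (-(‖ξ‖ ^ 2 / 4 ^ k))
  have h2 : Real.exp (-(‖ξ‖ ^ 2 / 4 ^ k)) ≤ 1 := by
    rw [Real.exp_le_one_iff]
    have : 0 ≤ ‖ξ‖ ^ 2 / (4 : ℝ) ^ k := by positivity
    linarith
  rw [abs_of_nonneg (by linarith)]
  linarith

lemma mk_out {n : ℕ} {k : ℤ} {ξ : En n} (h : 2 ^ k ≤ ‖ξ‖) : |mk k ξ| ≤ 4 ^ k / ‖ξ‖ ^ 2 := by
  have h0 : (0 : ℝ) < 2 ^ k := by positivity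
  have hpos : 0 < ‖ξ‖ := h0.trans_le h
  rw [mk, indicator_of_notMem (show ξ ∉ shell n 0 (2 ^ k) from fun h' => absurd h'.2 (not_lt.2 h)), ga_val,
    zero_sub, abs_neg, abs_of_pos (Real.exp_pos _), Real.exp_neg]
  have h1 := Real.add_one_le_exp (‖ξ‖ ^ 2 / (4 : ℝ) ^ k)
  rw [← one_div_div (‖ξ‖ ^ 2), ← one_div]
  have h2 : 0 < ‖ξ‖ ^ 2 / (4 : ℝ) ^ k := by positivity
  exact one_div_le_one_div_of_le h2 (by linarith)

lemma four_zpow (k : ℤ) : (4 : ℝ) ^ k = (2 ^ k) ^ 2 := by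
  rw [← zpow_natCast, ← zpow_mul, mul_comm, zpow_mul]; norm_num

lemma mk_sum {n : ℕ} (ξ : En n) : ∑' k : ℤ, ENNReal.ofReal (mk k ξ ^ 2) ≤ 4 := by
  rcases eq_or_ne ξ 0 with rfl | hξ
  · have : ∀ k : ℤ, mk k (0 : En n) = 0 := by
      intro k
      have h := mk_in (n := n) (k := k) (ξ := 0) (by rw [norm_zero]; positivity)
      rw [norm_zero] at h
      have : |mk k (0 : En n)| ≤ 0 := by simpa using h
      exact abs_nonpos_iff.1 this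
    simp [this]
  · have hr : 0 < ‖ξ‖ := norm_pos_iff.2 hξ
    obtain ⟨k₀, hk1, hk2⟩ := exists_mem_Ico_zpow hr one_lt_two
    have hq : ∀ (k : ℤ) (j : ℕ), |mk k ξ| ≤ (1 / 4) ^ j → ENNReal.ofReal (mk k ξ ^ 2) ≤ (2⁻¹ : ℝ≥0∞) ^ j := by
      intro k j h
      have h1 : mk k ξ ^ 2 ≤ (1 / 2) ^ j := by
        rw [← sq_abs]
        calc |mk k ξ| ^ 2 ≤ ((1 / 4) ^ j) ^ 2 := pow_le_pow_left₀ (abs_nonneg _) h 2
          _ = (1 / 16) ^ j := by rw [← pow_mul, mul_comm, pow_mul]; norm_num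
          _ ≤ _ := pow_le_pow_left₀ (by norm_num) (by norm_num) _
      refine (ENNReal.ofReal_le_ofReal h1).trans (le_of_eq ?_)
      rw [ENNReal.ofReal_pow (by norm_num), one_div, ENNReal.ofReal_inv_of_pos (by norm_num)]
      norm_num
    have hup : ∀ j : ℕ, |mk (k₀ + 1 + j) ξ| ≤ (1 / 4) ^ j := by
      intro j
      have h0 : (2 : ℝ) ^ (k₀ + 1) ≤ 2 ^ (k₀ + 1 + (j : ℤ)) :=
        zpow_le_zpow_right₀ one_le_two (by omega)
      refine (mk_in (hk2.trans_le h0)).trans ?_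
      rw [div_le_iff₀ (by positivity), zpow_add₀ (by norm_num), zpow_natCast, mul_comm ((4 : ℝ) ^ (k₀ + 1)),
        ← mul_assoc, ← mul_pow]
      norm_num
      rw [four_zpow]
      exact pow_le_pow_left₀ (norm_nonneg _) hk2.le 2
    have hdn : ∀ j : ℕ, |mk (k₀ - j) ξ| ≤ (1 / 4) ^ j := by
      intro j
      have h0 : (2 : ℝ) ^ (k₀ - (j : ℤ)) ≤ 2 ^ k₀ := zpow_le_zpow_right₀ one_le_two (by omega)
      refine (mk_out (h0.trans hk1)).trans ?_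
      rw [div_le_iff₀ (by positivity), zpow_sub₀ (by norm_num), zpow_natCast, div_pow, one_pow, div_mul_eq_mul_div,
        one_mul]
      gcongr
      rw [four_zpow]
      exact pow_le_pow_left₀ (by positivity) hk1 2
    have hs : ∑' k : ℤ, ENNReal.ofReal (mk k ξ ^ 2) = ∑' k : ℤ, ENNReal.ofReal (mk (k₀ + 1 + k) ξ ^ 2) :=
      ((Equiv.addLeft (k₀ + 1)).tsum_eq (fun k => ENNReal.ofReal (mk k ξ ^ 2))).symm
    have hz : HasSum (fun k : ℤ => ENNReal.ofReal (mk (k₀ + 1 + k) ξ ^ 2))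
        (∑' j : ℕ, ENNReal.ofReal (mk (k₀ + 1 + (j : ℤ)) ξ ^ 2) +
          ∑' j : ℕ, ENNReal.ofReal (mk (k₀ + 1 + (-((j : ℤ) + 1))) ξ ^ 2)) :=
      HasSum.of_nat_of_neg_add_one ENNReal.summable.hasSum ENNReal.summable.hasSum
    rw [hs, hz.tsum_eq, show (4 : ℝ≥0∞) = 2 + 2 by norm_num]
    refine add_le_add ?_ ?_
    · rw [← ENNReal.tsum_geometric_two]
      exact ENNReal.tsum_le_tsum fun j => hq _ j (hup j)
    · rw [← ENNReal.tsum_geometric_two]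
      refine ENNReal.tsum_le_tsum fun j => hq _ j ?_
      rw [show k₀ + 1 + (-((j : ℤ) + 1)) = k₀ - j by ring]
      exact hdn j

lemma diff_eq {m : ℕ} {G : En (m + 1) → ℂ} (hG : MemLp G 2) (k : ℤ) (x : En (m + 1)) :
    ps G (2 ^ k) x - Hm (Real.pi ^ 2 * 4 ^ k) G x = Fi (fun ξ => (mk k ξ : ℂ) * G ξ) x := by
  have hpi := Real.pi_pos
  have hc : 0 < Real.pi ^ 2 * (4 : ℝ) ^ k := by positivity
  rw [ps_eq, Hm, Fi, Fi, ← integral_sub (ek_int (ind_int hG _ _) x) (ek_int (ga_int hc hG) x), Fi]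
  refine integral_congr_ae (Eventually.of_forall fun ξ => ?_)
  simp only [mk]
  by_cases h : ξ ∈ shell (m + 1) 0 (2 ^ k)
  · rw [indicator_of_mem h, indicator_of_mem h]
    push_cast; ring
  · rw [indicator_of_notMem h, indicator_of_notMem h]
    push_cast; ring

lemma mkG_int {m : ℕ} {G : En (m + 1) → ℂ} (hG : MemLp G 2) (k : ℤ) :
    Integrable (fun ξ => (mk k ξ : ℂ) * G ξ) := by
  have hpi := Real.pi_pos
  have hc : 0 < Real.pi ^ 2 * (4 : ℝ) ^ k := by positivity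
  refine ((ind_int hG 0 (2 ^ k)).sub (ga_int hc hG)).congr (Eventually.of_forall fun ξ => ?_)
  simp only [mk, Pi.sub_apply]
  by_cases h : ξ ∈ shell (m + 1) 0 (2 ^ k)
  · rw [indicator_of_mem h, indicator_of_mem h]
    push_cast; ring
  · rw [indicator_of_notMem h, indicator_of_notMem h]
    push_cast; ring

lemma mk_meas {n : ℕ} (k : ℤ) : Measurable (mk (n := n) k) :=
  (measurable_const.indicator (shell_meas _ _ _)).sub (ga_cont _).measurable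

/-- lacunary majorant -/
noncomputable def NL {n : ℕ} (G : En n → ℂ) (x : En n) : ℝ≥0∞ :=
  2 * ((⨆ k : ℤ, ‖Hm (Real.pi ^ 2 * 4 ^ k) G x‖ₑ ^ 2) +
    ∑' k : ℤ, ‖Fi (fun ξ => (mk k ξ : ℂ) * G ξ) x‖ₑ ^ 2)

lemma NL_meas {m : ℕ} {G : En (m + 1) → ℂ} (hG : MemLp G 2) : Measurable (NL G) := by
  have hpi := Real.pi_pos
  refine ((Measurable.iSup fun k => ?_).add (Measurable.tsum fun k => ?_)).const_mul _
  · exact (Hm_cont (by positivity) hG).measurable.enorm.pow_const 2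
  · exact (Fi_cont (mkG_int hG k)).measurable.enorm.pow_const 2

theorem le_NL {m : ℕ} {G : En (m + 1) → ℂ} (hG : MemLp G 2) (k : ℤ) (x : En (m + 1)) :
    ‖ps G (2 ^ k) x‖ₑ ^ 2 ≤ NL G x := by
  have h1 : ps G (2 ^ k) x = Hm (Real.pi ^ 2 * 4 ^ k) G x + Fi (fun ξ => (mk k ξ : ℂ) * G ξ) x := by
    rw [← diff_eq hG]; ring
  rw [h1, NL]
  refine (enorm_add_sq_le _ _).trans ?_
  gcongr
  · exact le_iSup (fun k : ℤ => ‖Hm (Real.pi ^ 2 * 4 ^ k) G x‖ₑ ^ 2) k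
  · exact ENNReal.le_tsum k

/-- constant of the lacunary maximal function -/
noncomputable def C2 (n : ℕ) : ℝ≥0 := 2 * (c1 n ^ 2 + 1 + 4)

theorem NL_int {m : ℕ} {G : En (m + 1) → ℂ} (hG : MemLp G 2) :
    ∫⁻ x, NL G x ≤ C2 (m + 1) * ∫⁻ ξ, ‖G ξ‖ₑ ^ 2 := by
  have hpi := Real.pi_pos
  unfold NL
  have hGm : AEMeasurable (fun ξ => ‖G ξ‖ₑ ^ 2) := hG.aestronglyMeasurable.enorm.pow_const 2
  have m1 : Measurable (fun x => ⨆ k : ℤ, ‖Hm (Real.pi ^ 2 * 4 ^ k) G x‖ₑ ^ 2) :=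
    Measurable.iSup fun k => (Hm_cont (by positivity) hG).measurable.enorm.pow_const 2
  have m2 : ∀ k : ℤ, Measurable (fun x => ‖Fi (fun ξ => (mk k ξ : ℂ) * G ξ) x‖ₑ ^ 2) := fun k =>
    (Fi_cont (mkG_int hG k)).measurable.enorm.pow_const 2
  have m3 : Measurable (fun x => (⨆ k : ℤ, ‖Hm (Real.pi ^ 2 * 4 ^ k) G x‖ₑ ^ 2) +
      ∑' k : ℤ, ‖Fi (fun ξ => (mk k ξ : ℂ) * G ξ) x‖ₑ ^ 2) := m1.add (Measurable.tsum m2)
  rw [lintegral_const_mul _ m3, lintegral_add_left m1,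
    lintegral_tsum fun k => (m2 k).aemeasurable]
  have h1 : ∫⁻ x, ⨆ k : ℤ, ‖Hm (Real.pi ^ 2 * 4 ^ k) G x‖ₑ ^ 2 ≤
      ((c1 (m + 1) ^ 2 + 1 : ℝ≥0) : ℝ≥0∞) * ∫⁻ ξ, ‖G ξ‖ₑ ^ 2 := by
    have e := Equiv.intEquivNat
    have h2 : ∀ x, ⨆ k : ℤ, ‖Hm (Real.pi ^ 2 * 4 ^ k) G x‖ₑ ^ 2 =
        ⨆ i : ℕ, ‖Hm (Real.pi ^ 2 * 4 ^ (e.symm i)) G x‖ₑ ^ 2 := fun x =>
      (e.symm.surjective.iSup_comp (fun k : ℤ => ‖Hm (Real.pi ^ 2 * 4 ^ k) G x‖ₑ ^ 2)).symm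
    simp_rw [h2]
    exact max_Hm (c := fun i => Real.pi ^ 2 * 4 ^ (e.symm i)) (fun i => by positivity) hG
  have h3 : ∑' k : ℤ, ∫⁻ x, ‖Fi (fun ξ => (mk k ξ : ℂ) * G ξ) x‖ₑ ^ 2 ≤ 4 * ∫⁻ ξ, ‖G ξ‖ₑ ^ 2 := by
    have h4 : ∀ k : ℤ, ∫⁻ x, ‖Fi (fun ξ => (mk k ξ : ℂ) * G ξ) x‖ₑ ^ 2 ≤
        ∫⁻ ξ, ENNReal.ofReal (mk k ξ ^ 2) * ‖G ξ‖ₑ ^ 2 := by
      intro k
      refine (bessel (mkG_int hG k)).trans (le_of_eq ?_)
      refine lintegral_congr fun ξ => ?_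
      rw [enorm_mul, mul_pow, ← ofReal_norm, Complex.norm_real, ← ENNReal.ofReal_pow (norm_nonneg _),
        Real.norm_eq_abs, sq_abs]
    refine (ENNReal.tsum_le_tsum h4).trans ?_
    have h5 : ∀ k : ℤ, AEMeasurable (fun ξ : En (m + 1) => ENNReal.ofReal (mk k ξ ^ 2) * ‖G ξ‖ₑ ^ 2) :=
      fun k => ((mk_meas k).pow_const 2).ennreal_ofReal.aemeasurable.mul hGm
    rw [← lintegral_tsum h5]
    rw [← lintegral_const_mul'' _ hGm]
    refine lintegral_mono fun ξ => ?_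
    dsimp only
    rw [ENNReal.tsum_mul_right]
    exact mul_le_mul_left (mk_sum ξ) _
  refine (mul_le_mul_right (add_le_add h1 h3) 2).trans (le_of_eq ?_)
  rw [C2]
  push_cast
  ring

end Pool.Agent.E8helper16.XR
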