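import Mathlib
import Pool.Agent.E8helper16.XR.B
import Pool.Agent.E8helper16.XR.E

/-!
# Assembly
-/

set_option autoImplicit false

open MeasureTheory Set Filter Topology
open scoped ENNReal NNReal RealInnerProductSpace

namespace Pool.Agent.E8helper16.XR

open Pool.Agent.Helper93.Sph

lemma content_iUnion {a : ℝ} (A : ℕ → Set ℝ) : content a (⋃ k, A k) ≤ ∑' k, content a (A k) := by
  rcases eq_or_ne (∑' k, content a (A k)) ⊤ with h | h
  · rw [h]; exact le_top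
  refine ENNReal.le_of_forall_pos_le_add fun ε hε _ => ?_
  obtain ⟨ε', hε', hsum⟩ := ENNReal.exists_pos_sum_of_countable (ENNReal.coe_pos.2 hε).ne' ℕ
  have h1 : ∀ k, ∃ F : Set (ℝ × ℝ), F.Countable ∧ (∀ I ∈ F, I.1 < I.2) ∧ A k ⊆ ⋃ I ∈ F, Icc I.1 I.2 ∧
      ∑' I : F, gauge a ((I : ℝ × ℝ).2 - (I : ℝ × ℝ).1) ≤ content a (A k) + ε' k := by
    intro k
    have hk : content a (A k) < content a (A k) + ε' k :=
      ENNReal.lt_add_right (ENNReal.ne_top_of_tsum_ne_top h k) (ENNReal.coe_pos.2 (hε' k)).ne'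
    have hk2 := hk
    conv_lhs at hk2 => unfold content
    obtain ⟨F, hF⟩ := iInf_lt_iff.1 hk2
    obtain ⟨h1, hF⟩ := iInf_lt_iff.1 hF
    obtain ⟨h2, hF⟩ := iInf_lt_iff.1 hF
    obtain ⟨h3, hF⟩ := iInf_lt_iff.1 hF
    exact ⟨F, h1, h2, h3, hF.le⟩
  choose F f1 f2 f3 f4 using h1
  refine (content_le (F := ⋃ k, F k) (countable_iUnion f1) ?_ ?_).trans ?_
  · intro I hI
    obtain ⟨k, hk⟩ := mem_iUnion.1 hI
    exact f2 k I hk
  · intro x hx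
    obtain ⟨k, hk⟩ := mem_iUnion.1 hx
    obtain ⟨I, hI, hxI⟩ := mem_iUnion₂.1 (f3 k hk)
    exact mem_biUnion (mem_iUnion.2 ⟨k, hI⟩) hxI
  · refine (ENNReal.tsum_iUnion_le_tsum (fun J : ℝ × ℝ => gauge a (J.2 - J.1)) F).trans ?_
    refine (ENNReal.tsum_le_tsum f4).trans ?_
    rw [ENNReal.tsum_add]
    gcongr

/-- the gauge dominates all powers -/
lemma pow_le_gauge {a s : ℝ} (ha : 0 < a) (hs : 0 < s) : ∃ C : ℝ≥0, ∀ t : ℝ, 0 < t → t ≤ 1 →
    ENNReal.ofReal t ^ s ≤ C * gauge a t := by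
  refine ⟨(3 ^ s * (a / s) ^ a).toNNReal, fun t h0 h1 => ?_⟩
  have hl : 0 < Real.log (2 + 1 / t) := Real.log_pos (by
    have : 0 < 1 / t := by positivity
    linarith)
  rw [gauge, ENNReal.ofReal_rpow_of_pos h0]
  change ENNReal.ofReal (t ^ s) ≤ ENNReal.ofReal (3 ^ s * (a / s) ^ a) * _
  rw [← ENNReal.ofReal_mul (by positivity)]
  refine ENNReal.ofReal_le_ofReal ?_
  rw [Real.rpow_neg hl.le, ← div_eq_mul_inv, le_div_iff₀ (by positivity)]
  have h2 : Real.log (2 + 1 / t) ≤ (3 / t) ^ (s / a) * (a / s) := by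
    have h3 : Real.log (2 + 1 / t) ≤ Real.log (3 / t) := by
      refine Real.log_le_log (by positivity) ?_
      rw [show (3 : ℝ) / t = 2 * (1 / t) + 1 / t by ring]
      have : 1 ≤ 1 / t := by rw [le_div_iff₀ h0]; linarith
      linarith
    refine h3.trans ((Real.log_le_rpow_div (by positivity) (by positivity : 0 < s / a)).trans (le_of_eq ?_))
    field_simp
  calc t ^ s * Real.log (2 + 1 / t) ^ a ≤ t ^ s * ((3 / t) ^ (s / a) * (a / s)) ^ a := by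
        gcongr
    _ = t ^ s * ((3 / t) ^ s * (a / s) ^ a) := by
        rw [Real.mul_rpow (by positivity) (by positivity), ← Real.rpow_mul (by positivity),
          div_mul_cancel₀ _ ha.ne']
    _ = _ := by
        rw [Real.div_rpow (by norm_num) h0.le]
        field_simp

lemma gauge_mono {a : ℝ} (ha : 0 < a) {t t' : ℝ} (h0 : 0 < t) (h : t ≤ t') : gauge a t ≤ gauge a t' := by
  refine ENNReal.ofReal_le_ofReal ?_
  have h1 : 0 < t' := h0.trans_le h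
  have h2 : 0 < 1 / t' := by positivity
  refine Real.rpow_le_rpow_of_nonpos (Real.log_pos (by linarith)) ?_ (by linarith)
  exact Real.log_le_log (by positivity) (by gcongr)

lemma gauge_one_pos {a : ℝ} : 0 < gauge a 1 := by
  rw [gauge, ENNReal.ofReal_pos]
  have : 0 < Real.log (2 + 1 / 1) := Real.log_pos (by norm_num)
  positivity

/-- **sets of content zero have dimension zero** -/
theorem dimH_content {a : ℝ} (ha : 0 < a) {A : Set ℝ} (hA : content a A = 0) : dimH A = 0 := by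
  have key : ∀ s : ℝ≥0, 0 < s → μH[(s : ℝ)] A = 0 := by
    intro s hs
    obtain ⟨C, hC⟩ := pow_le_gauge ha (NNReal.coe_pos.2 hs)
    obtain ⟨C', hC'⟩ := pow_le_gauge ha zero_lt_one
    have hη : ∀ m : ℕ, (0 : ℝ≥0∞) < min (gauge a 1) ((m : ℝ≥0∞) + 1)⁻¹ := fun m =>
      lt_min gauge_one_pos (ENNReal.inv_pos.2 (by simp [ENNReal.add_eq_top]))
    have h1 : ∀ m : ℕ, ∃ F : Set (ℝ × ℝ), F.Countable ∧ (∀ I ∈ F, I.1 < I.2) ∧
        A ⊆ (⋃ I ∈ F, Icc I.1 I.2) ∧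
        ∑' I : F, gauge a ((I : ℝ × ℝ).2 - (I : ℝ × ℝ).1) < min (gauge a 1) ((m : ℝ≥0∞) + 1)⁻¹ := by
      intro m
      have hk2 := hη m
      rw [← hA] at hk2
      conv_lhs at hk2 => unfold content
      obtain ⟨F, hF⟩ := iInf_lt_iff.1 hk2
      obtain ⟨h1, hF⟩ := iInf_lt_iff.1 hF
      obtain ⟨h2, hF⟩ := iInf_lt_iff.1 hF
      obtain ⟨h3, hF⟩ := iInf_lt_iff.1 hF
      exact ⟨F, h1, h2, h3, hF⟩
    choose F f1 f2 f3 f4 using h1
    have hlen : ∀ (m : ℕ) (I : F m), 0 < (I : ℝ × ℝ).2 - (I : ℝ × ℝ).1 ∧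
        (I : ℝ × ℝ).2 - (I : ℝ × ℝ).1 ≤ 1 ∧
        ENNReal.ofReal ((I : ℝ × ℝ).2 - (I : ℝ × ℝ).1) ≤ C' * ((m : ℝ≥0∞) + 1)⁻¹ := by
      intro m I
      have hp : 0 < (I : ℝ × ℝ).2 - (I : ℝ × ℝ).1 := sub_pos.2 (f2 m _ I.2)
      have hg : gauge a ((I : ℝ × ℝ).2 - (I : ℝ × ℝ).1) < min (gauge a 1) ((m : ℝ≥0∞) + 1)⁻¹ :=
        (ENNReal.le_tsum I).trans_lt (f4 m)
      have h1 : (I : ℝ × ℝ).2 - (I : ℝ × ℝ).1 ≤ 1 := by
        by_contra hc
        push Not at hc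
        exact absurd (gauge_mono ha one_pos hc.le) (not_le.2 (hg.trans_le (min_le_left _ _)))
      refine ⟨hp, h1, ?_⟩
      have := hC' _ hp h1
      rw [ENNReal.rpow_one] at this
      exact this.trans (mul_le_mul_right (hg.le.trans (min_le_right _ _)) _)
    have hdiam : ∀ (m : ℕ) (I : F m), Metric.ediam (Icc (I : ℝ × ℝ).1 (I : ℝ × ℝ).2) =
        ENNReal.ofReal ((I : ℝ × ℝ).2 - (I : ℝ × ℝ).1) := fun m I => Real.ediam_Icc _ _
    have hinv : Tendsto (fun m : ℕ => ((m : ℝ≥0∞) + 1)⁻¹) atTop (𝓝 0) := by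
      have h5 : Tendsto (fun m : ℕ => ((m + 1 : ℕ) : ℝ≥0∞)⁻¹) atTop (𝓝 0) :=
        ENNReal.tendsto_inv_nat_nhds_zero.comp (tendsto_add_atTop_nat 1)
      refine h5.congr fun m => ?_
      push_cast; rfl
    have hcount : ∀ m : ℕ, Countable (F m) := fun m => (f1 m).to_subtype
    have h6 := Measure.hausdorffMeasure_le_liminf_tsum (X := ℝ) (s : ℝ) A (l := atTop)
      (fun m : ℕ => (C' : ℝ≥0∞) * ((m : ℝ≥0∞) + 1)⁻¹) (by
        have := ENNReal.Tendsto.const_mul (a := (C' : ℝ≥0∞)) hinv (Or.inr ENNReal.coe_ne_top)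
        rwa [mul_zero] at this)
      (fun (m : ℕ) (I : F m) => Icc (I : ℝ × ℝ).1 (I : ℝ × ℝ).2)
      (Eventually.of_forall fun m I => by rw [hdiam]; exact (hlen m I).2.2)
      (Eventually.of_forall fun m => by
        intro x hx
        obtain ⟨I, hI, hxI⟩ := mem_iUnion₂.1 (f3 m hx)
        exact mem_iUnion.2 ⟨⟨I, hI⟩, hxI⟩)
    refine le_antisymm (h6.trans ?_) zero_le
    have h7 : ∀ m : ℕ, ∑' I : F m, Metric.ediam (Icc (I : ℝ × ℝ).1 (I : ℝ × ℝ).2) ^ (s : ℝ) ≤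
        C * ((m : ℝ≥0∞) + 1)⁻¹ := by
      intro m
      calc _ ≤ ∑' I : F m, C * gauge a ((I : ℝ × ℝ).2 - (I : ℝ × ℝ).1) :=
            ENNReal.tsum_le_tsum fun I => by
              rw [hdiam]; exact hC _ (hlen m I).1 (hlen m I).2.1
        _ ≤ _ := by
            rw [ENNReal.tsum_mul_left]
            exact mul_le_mul_right ((f4 m).le.trans (min_le_right _ _)) _
    have h8 : Tendsto (fun m : ℕ => (C : ℝ≥0∞) * ((m : ℝ≥0∞) + 1)⁻¹) atTop (𝓝 0) := by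
      have := ENNReal.Tendsto.const_mul (a := (C : ℝ≥0∞)) hinv (Or.inr ENNReal.coe_ne_top)
      rwa [mul_zero] at this
    rw [← h8.liminf_eq]
    exact liminf_le_liminf (Eventually.of_forall h7)
  refine le_antisymm (le_of_forall_gt fun s hs => ?_) zero_le
  obtain ⟨r, hr0, hrs⟩ := ENNReal.lt_iff_exists_nnreal_btwn.1 hs
  refine lt_of_le_of_lt (dimH_le_of_hausdorffMeasure_ne_top ?_) hrs
  rw [key r (by exact_mod_cast hr0)]
  exact ENNReal.zero_ne_top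

/-! ### the maximal estimate -/

lemma level_content {m : ℕ} {a : ℝ} (ha : 2 < a) {G : En (m + 1) → ℂ} (hG : MemLp G 2) (k : ℤ)
    (x : En (m + 1)) (t : ℝ) :
    content a {ρ | ρ ∈ Ico (1 : ℝ) 2 ∧ t < 4 * ‖ps G (2 ^ k * ρ) x - ps G (2 ^ k) x‖ ^ 2} ≤
      V (ph a) (fun j i => 4 * qq a G k x j i) t 0 0 0 := by
  refine tree_content t (fun ρ h => h.1) ?_
  rintro ρ ⟨hρ, ht⟩
  have h1 : Tendsto (fun j => 4 * ‖ps G (le_ k j (idx j (ρ - 1))) x - ps G (2 ^ k) x‖ ^ 2) atTop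
      (𝓝 (4 * ‖ps G (2 ^ k * ρ) x - ps G (2 ^ k) x‖ ^ 2)) :=
    ((((((ps_cont_R hG x).tendsto _).comp (le_tendsto k hρ.1)).sub tendsto_const_nhds).norm).pow 2).const_mul 4
  have h0 : le_ k 0 (idx 0 (ρ - 1)) = 2 ^ k := by
    rw [idx_zero (by linarith [hρ.2]), le_]; simp
  obtain ⟨f, hf⟩ := (h1.eventually_const_lt ht).exists
  refine ⟨f, ?_⟩
  have h2 := chain_sum ha G k x (u := ρ - 1) (by linarith [hρ.1]) f
  rw [h0] at h2
  change t < ∑ l ∈ Finset.range (f + 1), 4 * qq a G k x l (idx l (ρ - 1))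
  rw [← Finset.mul_sum, Finset.sum_range_succ]
  have := qq_nonneg ha G k x f (idx f (ρ - 1))
  linarith

theorem level_choquet {m : ℕ} {a : ℝ} (ha : 2 < a) {G : En (m + 1) → ℂ} (hG : MemLp G 2) (k : ℤ)
    (x : En (m + 1)) :
    ∫⁻ t in Ici (0 : ℝ), content a {ρ | ρ ∈ Ico (1 : ℝ) 2 ∧
      t < 4 * ‖ps G (2 ^ k * ρ) x - ps G (2 ^ k) x‖ ^ 2} ≤ 4 * Nk a G k x := by
  refine (lintegral_mono fun t => level_content ha hG k x t).trans
    ((tree_choquet fun j i => mul_nonneg (by norm_num) (qq_nonneg ha G k x j i)).trans (le_of_eq ?_))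
  rw [Nk, ← ENNReal.tsum_mul_left]
  refine tsum_congr fun l => ?_
  rw [mul_left_comm]
  congr 1
  rw [Finset.mul_sum]
  refine Finset.sum_congr rfl fun c _ => ?_
  rw [ENNReal.ofReal_mul (by norm_num)]
  norm_num

/-- majorant -/
noncomputable def NN {n : ℕ} (a : ℝ) (G : En n → ℂ) (x : En n) : ℝ≥0∞ :=
  gauge a 1 * (4 * NL G x) + 4 * ∑' k : ℤ, Nk a G k x

lemma NN_meas {m : ℕ} {a : ℝ} {G : En (m + 1) → ℂ} (hG : MemLp G 2) : Measurable (NN a G) :=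
  (((NL_meas hG).const_mul _).const_mul _).add ((Measurable.tsum fun k => Nk_meas hG k).const_mul _)

lemma sum_Nk_int {m : ℕ} {a : ℝ} {G : En (m + 1) → ℂ} (hG : MemLp G 2) :
    ∫⁻ x, ∑' k : ℤ, Nk a G k x ≤ C1 a * ∫⁻ ξ, ‖G ξ‖ₑ ^ 2 := by
  rw [lintegral_tsum fun k => (Nk_meas hG k).aemeasurable]
  refine (ENNReal.tsum_le_tsum fun k => Nk_int hG k).trans ?_
  rw [ENNReal.tsum_mul_left]
  refine mul_le_mul_right ?_ _
  have hd : Pairwise (Function.onFun Disjoint fun k : ℤ => shell (m + 1) (2 ^ k) (2 ^ (k + 1))) := by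
    intro k l hkl
    rw [Function.onFun, Set.disjoint_left]
    rintro ξ ⟨a1, a2⟩ ⟨b1, b2⟩
    rcases lt_or_gt_of_ne hkl with h | h
    · have : (2 : ℝ) ^ (k + 1) ≤ 2 ^ l := zpow_le_zpow_right₀ one_le_two (by omega)
      linarith
    · have : (2 : ℝ) ^ (l + 1) ≤ 2 ^ k := zpow_le_zpow_right₀ one_le_two (by omega)
      linarith
  rw [← lintegral_iUnion (fun k => shell_meas _ _ _) hd]
  exact setLIntegral_le_lintegral _ _

theorem NN_int {m : ℕ} {a : ℝ} {G : En (m + 1) → ℂ} (hG : MemLp G 2) :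
    ∫⁻ x, NN a G x ≤ (gauge a 1 * (4 * C2 (m + 1)) + 4 * C1 a) * ∫⁻ ξ, ‖G ξ‖ₑ ^ 2 := by
  unfold NN
  rw [lintegral_add_left (((NL_meas hG).const_mul _).const_mul _), lintegral_const_mul _ ((NL_meas hG).const_mul _),
    lintegral_const_mul _ (NL_meas hG), lintegral_const_mul _ (Measurable.tsum fun k => Nk_meas hG k), add_mul]
  refine add_le_add ?_ ?_
  · rw [mul_assoc, mul_assoc]
    exact mul_le_mul_right (mul_le_mul_right (NL_int hG) _) _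
  · rw [mul_assoc]
    exact mul_le_mul_right (sum_Nk_int hG) _

theorem NN_le {m : ℕ} {a : ℝ} (ha : 2 < a) {G : En (m + 1) → ℂ} (hG : MemLp G 2) (k : ℤ)
    (x : En (m + 1)) :
    ∫⁻ t in Ioi (0 : ℝ), content a {ρ | ρ ∈ Ico (1 : ℝ) 2 ∧ t < ‖ps G (2 ^ k * ρ) x‖ ^ 2} ≤ NN a G x := by
  set b : ℝ := 4 * ‖ps G (2 ^ k) x‖ ^ 2 with hb
  have hb0 : 0 ≤ b := by positivity
  have h1 : ∀ t : ℝ, content a {ρ | ρ ∈ Ico (1 : ℝ) 2 ∧ t < ‖ps G (2 ^ k * ρ) x‖ ^ 2} ≤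
      (Iio b).indicator (fun _ => gauge a 1) t +
        content a {ρ | ρ ∈ Ico (1 : ℝ) 2 ∧ t < 4 * ‖ps G (2 ^ k * ρ) x - ps G (2 ^ k) x‖ ^ 2} := by
    intro t
    by_cases ht : t ∈ Iio b
    · rw [indicator_of_mem ht]
      refine (content_unit ?_).trans le_self_add
      rintro ρ ⟨hρ, _⟩
      exact ⟨hρ.1, hρ.2.le⟩
    · rw [indicator_of_notMem ht, zero_add]
      refine content_mono ?_
      rintro ρ ⟨hρ, h2⟩
      refine ⟨hρ, ?_⟩
      have h3 : ‖ps G (2 ^ k * ρ) x‖ ≤ ‖ps G (2 ^ k) x‖ + ‖ps G (2 ^ k * ρ) x - ps G (2 ^ k) x‖ := by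
        have := norm_add_le (ps G (2 ^ k) x) (ps G (2 ^ k * ρ) x - ps G (2 ^ k) x)
        rwa [add_sub_cancel] at this
      have h4 : b ≤ t := not_lt.1 ht
      have h5 := norm_nonneg (ps G (2 ^ k * ρ) x)
      have h6 := norm_nonneg (ps G (2 ^ k) x)
      have h7 := norm_nonneg (ps G (2 ^ k * ρ) x - ps G (2 ^ k) x)
      have h8 : ‖ps G (2 ^ k * ρ) x‖ ^ 2 ≤
          (‖ps G (2 ^ k) x‖ + ‖ps G (2 ^ k * ρ) x - ps G (2 ^ k) x‖) ^ 2 := pow_le_pow_left₀ h5 h3 2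
      nlinarith [sq_nonneg (‖ps G (2 ^ k) x‖ - ‖ps G (2 ^ k * ρ) x - ps G (2 ^ k) x‖)]
  have hm : Measurable (fun t : ℝ => (Iio b).indicator (fun _ => gauge a 1) t) :=
    measurable_const.indicator measurableSet_Iio
  refine (lintegral_mono_set Ioi_subset_Ici_self).trans ((lintegral_mono h1).trans ?_)
  rw [lintegral_add_left hm]
  refine add_le_add ?_ ((level_choquet ha hG k x).trans ?_)
  · rw [lintegral_indicator measurableSet_Iio, lintegral_const, Measure.restrict_apply_univ,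
      Measure.restrict_apply measurableSet_Iio, inter_comm, Ici_inter_Iio, Real.volume_Ico, sub_zero]
    refine mul_le_mul_right ?_ _
    rw [hb, ENNReal.ofReal_mul (by norm_num), ENNReal.ofReal_pow (norm_nonneg _), ofReal_norm]
    norm_num
    exact mul_le_mul_right (le_NL hG k x) _
  · exact mul_le_mul_right (ENNReal.le_tsum k) _

/-- level sets and the majorant -/
lemma content_cheb {m : ℕ} {a : ℝ} (ha : 2 < a) {G : En (m + 1) → ℂ} (hG : MemLp G 2) (k : ℤ)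
    (x : En (m + 1)) {t₀ : ℝ} (ht₀ : 0 < t₀) :
    content a {ρ | ρ ∈ Ico (1 : ℝ) 2 ∧ t₀ < ‖ps G (2 ^ k * ρ) x - ps G (2 ^ k) x‖ ^ 2} ≤
      Nk a G k x / ENNReal.ofReal t₀ := by
  rw [ENNReal.le_div_iff_mul_le (Or.inl (by simpa using ht₀)) (Or.inl ENNReal.ofReal_ne_top)]
  refine le_trans ?_ (shell_choquet ha hG k x)
  calc _ = ∫⁻ _t in Ico (0 : ℝ) t₀, content a {ρ | ρ ∈ Ico (1 : ℝ) 2 ∧
          t₀ < ‖ps G (2 ^ k * ρ) x - ps G (2 ^ k) x‖ ^ 2} := by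
        rw [lintegral_const, Measure.restrict_apply_univ, Real.volume_Ico, sub_zero]
    _ ≤ ∫⁻ t in Ico (0 : ℝ) t₀, content a {ρ | ρ ∈ Ico (1 : ℝ) 2 ∧
          t < ‖ps G (2 ^ k * ρ) x - ps G (2 ^ k) x‖ ^ 2} := by
        refine setLIntegral_mono' measurableSet_Ico fun t ht => content_mono ?_
        rintro ρ ⟨h1, h2⟩
        exact ⟨h1, ht.2.trans h2⟩
    _ ≤ _ := lintegral_mono_set Ico_subset_Ici_self

/-! ### convergence -/

theorem lac_conv {m : ℕ} {G : En (m + 1) → ℂ} (hG : MemLp G 2) :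
    ∀ᵐ x : En (m + 1), ∃ L : ℂ, Tendsto (fun k : ℕ => ps G (2 ^ (k : ℤ)) x) atTop (𝓝 L) := by
  have hc : Tendsto (fun j : ℕ => (2 : ℝ) ^ (j : ℤ)) atTop atTop := by
    simp only [zpow_natCast]
    exact tendsto_pow_atTop_atTop_of_one_lt one_lt_two
  have h1 : ∀ᵐ x : En (m + 1), liminf (fun j : ℕ => NL (tail ((2 : ℝ) ^ (j : ℤ)) G) x) atTop = 0 := by
    have hmeas : ∀ j : ℕ, Measurable (fun x => NL (tail ((2 : ℝ) ^ (j : ℤ)) G) x) := fun j =>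
      NL_meas (tail_memLp _ hG)
    refine (lintegral_eq_zero_iff (Measurable.liminf hmeas)).1 ?_
    refine le_antisymm ((lintegral_liminf_le hmeas).trans ?_) zero_le
    have h2 : Tendsto (fun j : ℕ => (C2 (m + 1) : ℝ≥0∞) * ∫⁻ ξ, ‖tail ((2 : ℝ) ^ (j : ℤ)) G ξ‖ₑ ^ 2)
        atTop (𝓝 0) := by
      have := ENNReal.Tendsto.const_mul (a := (C2 (m + 1) : ℝ≥0∞)) (tail_tendsto hG hc)
        (Or.inr ENNReal.coe_ne_top)
      rwa [mul_zero] at this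
    rw [← h2.liminf_eq]
    exact liminf_le_liminf (Eventually.of_forall fun j => NL_int (tail_memLp _ hG))
  filter_upwards [h1] with x hx
  refine cauchySeq_tendsto_of_complete ?_
  rw [Metric.cauchySeq_iff']
  intro ε hε
  have h3 : ∃ j : ℕ, NL (tail ((2 : ℝ) ^ (j : ℤ)) G) x < ENNReal.ofReal (ε ^ 2) := by
    by_contra hcon
    push Not at hcon
    have : ENNReal.ofReal (ε ^ 2) ≤ liminf (fun j : ℕ => NL (tail ((2 : ℝ) ^ (j : ℤ)) G) x) atTop :=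
      le_liminf_of_le (by isBoundedDefault) (Eventually.of_forall hcon)
    rw [hx] at this
    have h4 : 0 < ENNReal.ofReal (ε ^ 2) := by rw [ENNReal.ofReal_pos]; positivity
    exact absurd this (not_le.2 h4)
  obtain ⟨j, hj⟩ := h3
  refine ⟨j, fun k hk => ?_⟩
  have h5 : (2 : ℝ) ^ (j : ℤ) ≤ 2 ^ (k : ℤ) := zpow_le_zpow_right₀ one_le_two (by exact_mod_cast hk)
  have h6 := le_NL (tail_memLp ((2 : ℝ) ^ (j : ℤ)) hG) k x
  rw [tail_ps hG (by positivity) h5] at h6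
  have h7 := h6.trans_lt hj
  rw [← ofReal_norm, ← ENNReal.ofReal_pow (norm_nonneg _), ENNReal.ofReal_lt_ofReal_iff (by positivity)] at h7
  rw [dist_eq_norm]
  exact lt_of_pow_lt_pow_left₀ 2 hε.le h7

theorem exists_lim {m : ℕ} {G : En (m + 1) → ℂ} (hG : MemLp G 2) :
    ∃ f : En (m + 1) → ℂ, Measurable f ∧
      (∀ᵐ x : En (m + 1), Tendsto (fun k : ℕ => ps G (2 ^ (k : ℤ)) x) atTop (𝓝 (f x))) ∧
      Tendsto (fun R : ℝ => ∫⁻ x, ‖ps G R x - f x‖ₑ ^ 2) atTop (𝓝 0) := by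
  obtain ⟨f, hf1, hf2⟩ := measurable_limit_of_tendsto_metrizable_ae
    (fun k : ℕ => (ps_cont_x hG ((2 : ℝ) ^ (k : ℤ))).measurable.aemeasurable) (lac_conv hG)
  refine ⟨f, hf1, hf2, ?_⟩
  have h1 : ∀ R : ℝ, 0 ≤ R → ∫⁻ x, ‖ps G R x - f x‖ₑ ^ 2 ≤ ∫⁻ ξ, ‖tail R G ξ‖ₑ ^ 2 := by
    intro R hR
    have h2 : ∀ᵐ x : En (m + 1), ‖ps G R x - f x‖ₑ ^ 2 ≤
        liminf (fun k : ℕ => ‖ps G R x - ps G (2 ^ (k : ℤ)) x‖ₑ ^ 2) atTop := by
      filter_upwards [hf2] with x hx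
      have : Tendsto (fun k : ℕ => ‖ps G R x - ps G (2 ^ (k : ℤ)) x‖ₑ ^ 2) atTop
          (𝓝 (‖ps G R x - f x‖ₑ ^ 2)) := ENNReal.Tendsto.pow (hx.const_sub _).enorm
      exact this.liminf_eq.ge
    refine (lintegral_mono_ae h2).trans ((lintegral_liminf_le fun k => ?_).trans ?_)
    · exact ((ps_cont_x hG _).sub (ps_cont_x hG _)).measurable.enorm.pow_const 2
    · have hc : Tendsto (fun j : ℕ => (2 : ℝ) ^ (j : ℤ)) atTop atTop := by
        simp only [zpow_natCast]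
        exact tendsto_pow_atTop_atTop_of_one_lt one_lt_two
      have h3 : ∀ᶠ k : ℕ in atTop, ∫⁻ x, ‖ps G R x - ps G (2 ^ (k : ℤ)) x‖ₑ ^ 2 ≤
          ∫⁻ ξ, ‖tail R G ξ‖ₑ ^ 2 := by
        filter_upwards [hc.eventually_ge_atTop R] with k hk
        have h4 : ∀ x, ‖ps G R x - ps G (2 ^ (k : ℤ)) x‖ₑ ^ 2 =
            ‖Fi ((shell (m + 1) R (2 ^ (k : ℤ))).indicator G) x‖ₑ ^ 2 := by
          intro x
          rw [← ps_sub hG hR hk, ← enorm_neg, neg_sub]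
        simp_rw [h4]
        refine (piece_l2 hG (shell_meas _ _ _) (shell_finite _ _ _)).trans ?_
        rw [← lintegral_indicator (shell_meas _ _ _)]
        refine lintegral_mono fun ξ => ?_
        by_cases h : ξ ∈ shell (m + 1) R (2 ^ (k : ℤ))
        · rw [indicator_of_mem h, tail, indicator_of_mem (show ξ ∈ {ξ : En (m + 1) | R ≤ ‖ξ‖} from h.1)]
        · rw [indicator_of_notMem h]; exact zero_le
      exact (liminf_le_liminf h3).trans (le_of_eq (liminf_const _))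
  have h5 : Tendsto (fun R : ℝ => ∫⁻ ξ, ‖tail R G ξ‖ₑ ^ 2) atTop (𝓝 0) :=
    tendsto_of_seq_tendsto fun c hc => tail_tendsto hG hc
  exact tendsto_of_tendsto_of_tendsto_of_le_of_le' tendsto_const_nhds h5
    (Eventually.of_forall fun _ => zero_le) ((eventually_ge_atTop 0).mono h1)

theorem quasi_conv {m : ℕ} {a : ℝ} (ha : 2 < a) {G : En (m + 1) → ℂ} (hG : MemLp G 2)
    {f : En (m + 1) → ℂ}
    (hf : ∀ᵐ x : En (m + 1), Tendsto (fun k : ℕ => ps G (2 ^ (k : ℤ)) x) atTop (𝓝 (f x))) :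
    ∀ᵐ x : En (m + 1), ∀ ε : ℝ, 0 < ε →
      ∑' k : ℕ, content a {ρ | ρ ∈ Ico (1 : ℝ) 2 ∧ ε < ‖ps G (2 ^ k * ρ) x - f x‖} < ⊤ := by
  have hfin : ∀ᵐ x : En (m + 1), ∑' k : ℤ, Nk a G k x < ⊤ := by
    refine ae_lt_top (Measurable.tsum fun k => Nk_meas hG k) ?_
    exact ((sum_Nk_int hG).trans_lt (ENNReal.mul_lt_top (C1_lt ha) (sq_fin hG).lt_top)).ne
  filter_upwards [hfin, hf] with x hx hL
  intro ε hε
  set L := f x with hLdef
  obtain ⟨K, hK⟩ := Metric.tendsto_atTop.1 hL (ε / 2) (by positivity)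
  have h1 : ∀ k : ℕ, content a {ρ | ρ ∈ Ico (1 : ℝ) 2 ∧ ε < ‖ps G (2 ^ k * ρ) x - L‖} ≤
      (if k < K then gauge a 1 else 0) + Nk a G (k : ℤ) x / ENNReal.ofReal ((ε / 2) ^ 2) := by
    intro k
    split_ifs with hkK
    · refine (content_unit ?_).trans le_self_add
      rintro ρ ⟨hρ, _⟩
      exact ⟨hρ.1, hρ.2.le⟩
    · rw [zero_add]
      refine le_trans (content_mono ?_) (content_cheb ha hG (k : ℤ) x (by positivity))
      rintro ρ ⟨hρ, h2⟩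
      refine ⟨hρ, ?_⟩
      have h3 := hK k (not_lt.1 hkK)
      rw [dist_eq_norm] at h3
      rw [zpow_natCast] at h3 ⊢
      have h4 : ‖ps G (2 ^ k * ρ) x - L‖ ≤ ‖ps G (2 ^ k * ρ) x - ps G (2 ^ k) x‖ + ‖ps G (2 ^ k) x - L‖ := by
        have := norm_add_le (ps G (2 ^ k * ρ) x - ps G (2 ^ k) x) (ps G (2 ^ k) x - L)
        rwa [sub_add_sub_cancel] at this
      exact pow_lt_pow_left₀ (by linarith) (by positivity) two_ne_zero
  refine (ENNReal.tsum_le_tsum h1).trans_lt ?_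
  rw [ENNReal.tsum_add]
  refine ENNReal.add_lt_top.2 ⟨?_, ?_⟩
  · rw [tsum_eq_sum (s := Finset.range K) fun k hk => if_neg (by simpa using hk)]
    refine ENNReal.sum_lt_top.2 fun k _ => ?_
    split_ifs
    · exact ENNReal.ofReal_lt_top
    · exact ENNReal.zero_lt_top
  · simp only [div_eq_mul_inv]
    rw [ENNReal.tsum_mul_right]
    refine ENNReal.mul_lt_top ?_ (ENNReal.inv_lt_top.2 (by rw [ENNReal.ofReal_pos]; positivity))
    refine lt_of_le_of_lt ?_ hx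
    exact ENNReal.tsum_comp_le_tsum_of_injective Nat.cast_injective (fun k : ℤ => Nk a G k x)

/-- summable contents of the level sets imply convergence off a set of dimension zero -/
theorem dim_conv {a : ℝ} (ha : 0 < a) {f : ℕ → ℝ → ℂ} {L : ℂ}
    (h : ∀ ε : ℝ, 0 < ε → ∑' k : ℕ, content a {ρ | ρ ∈ Ico (1 : ℝ) 2 ∧ ε < ‖f k ρ - L‖} < ⊤) :
    dimH {ρ | ρ ∈ Ico (1 : ℝ) 2 ∧ ¬ Tendsto (fun k => f k ρ) atTop (𝓝 L)} = 0 := by
  set W : ℕ → Set ℝ := fun m => {ρ | ρ ∈ Ico (1 : ℝ) 2 ∧ ∃ᶠ k in atTop, 1 / ((m : ℝ) + 1) < ‖f k ρ - L‖} with hW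
  have hsub : {ρ | ρ ∈ Ico (1 : ℝ) 2 ∧ ¬ Tendsto (fun k => f k ρ) atTop (𝓝 L)} ⊆ ⋃ m, W m := by
    rintro ρ ⟨hρ, h1⟩
    by_contra hcon
    refine h1 (Metric.tendsto_atTop'.2 fun ε hε => ?_)
    obtain ⟨m, hm⟩ := exists_nat_one_div_lt hε
    have h2 : ρ ∉ W m := fun h3 => hcon (mem_iUnion.2 ⟨m, h3⟩)
    have h3 : ¬ ∃ᶠ k in atTop, 1 / ((m : ℝ) + 1) < ‖f k ρ - L‖ := fun h4 => h2 ⟨hρ, h4⟩
    rw [not_frequently, eventually_atTop] at h3
    obtain ⟨N, hN⟩ := h3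
    refine ⟨N, fun k hk => ?_⟩
    rw [dist_eq_norm]
    exact lt_of_le_of_lt (not_lt.1 (hN k hk.le)) hm
  have h0 : ∀ m, content a (W m) = 0 := by
    intro m
    have h1 := h (1 / ((m : ℝ) + 1)) (by positivity)
    have h2 : Tendsto (fun N => ∑' k : ℕ, content a {ρ | ρ ∈ Ico (1 : ℝ) 2 ∧
        1 / ((m : ℝ) + 1) < ‖f (k + N) ρ - L‖}) atTop (𝓝 0) := ENNReal.tendsto_sum_nat_add
      (fun k => content a {ρ | ρ ∈ Ico (1 : ℝ) 2 ∧ 1 / ((m : ℝ) + 1) < ‖f k ρ - L‖}) h1.ne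
    refine le_antisymm (ge_of_tendsto' h2 fun N => ?_) zero_le
    refine (content_mono ?_).trans (content_iUnion _)
    rintro ρ ⟨hρ, h3⟩
    obtain ⟨k, hk, h4⟩ := frequently_atTop.1 h3 N
    exact mem_iUnion.2 ⟨k - N, hρ, by rwa [Nat.sub_add_cancel hk]⟩
  refine le_antisymm ((dimH_mono hsub).trans ?_) zero_le
  rw [dimH_iUnion]
  exact iSup_le fun m => (dimH_content ha (h0 m)).le

end Pool.Agent.E8helper16.XR
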